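import Mathlib

/-!
# The `k`-ary unbiased black-box model on `OneMax`

All notions are those of the problem file.
-/

open scoped ENNReal

namespace UBB

/-- the search space `{0,1}^n` -/
abbrev Pt (n : ℕ) : Type := Fin n → Bool

/-- `OM_z(x) = |{i : x_i = z_i}|` -/
def OM {n : ℕ} (z x : Pt n) : ℕ := (Finset.univ.filter (fun i => x i = z i)).card

/-- coordinatewise addition mod 2 -/
def add2 {n : ℕ} (x w : Pt n) : Pt n := fun i => xor (x i) (w i)

/-- A `j`-ary unbiased variation operator: to every `j`-tuple of points it assigns a probability
distribution on `{0,1}^n`, invariant under XOR with any `w` and under every permutation of the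
coordinates, both applied to all the arguments and to the outcome. -/
structure UnbiasedOp (j n : ℕ) where
  dist : (Fin j → Pt n) → PMF (Pt n)
  xor_inv : ∀ (x : Fin j → Pt n) (y w : Pt n),
    dist (fun i => add2 (x i) w) (add2 y w) = dist x y
  perm_inv : ∀ (x : Fin j → Pt n) (y : Pt n) (s : Equiv.Perm (Fin n)),
    dist (fun i => x i ∘ s) (y ∘ s) = dist x y

/-- What an algorithm selects in one round, after `m` queries: an arity `j ≤ k`, indices of `j`
points queried earlier, and a `j`-ary unbiased variation operator. -/
structure Choice (k n m : ℕ) where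
  arity : ℕ
  arity_le : arity ≤ k
  idx : Fin arity → Fin m
  op : UnbiasedOp arity n

/-- A rule: after `m` queries with observed values `v 0, …, v (m-1)` it makes a choice. -/
abbrev Rule (k n : ℕ) : Type := (m : ℕ) → (Fin m → ℕ) → Choice k n m

/-- The distribution of the next query on the objective function `f`, when the points queried so
far are `h`.  The first query is uniform; afterwards the rule sees only the observed values. -/
noncomputable def nextLaw {k n : ℕ} (R : Rule k n) (f : Pt n → ℕ) :
    (m : ℕ) → (Fin m → Pt n) → PMF (Pt n)
  | 0, _ => PMF.uniformOfFintype (Pt n)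
  | m + 1, h =>
      (R (m + 1) (fun i => f (h i))).op.dist
        (fun i => h ((R (m + 1) (fun i => f (h i))).idx i))

/-- The joint distribution of the first `m` queries on `f`. -/
noncomputable def queries {k n : ℕ} (R : Rule k n) (f : Pt n → ℕ) :
    (m : ℕ) → PMF (Fin m → Pt n)
  | 0 => PMF.pure (fun i => i.elim0)
  | m + 1 => (queries R f m).bind fun h =>
      (nextLaw R f m h).map fun x => (Fin.snoc (α := fun _ => Pt n) h x : Fin (m + 1) → Pt n)

/-- `x` is a maximiser of `f` -/
def IsMaximiser {n : ℕ} (f : Pt n → ℕ) (x : Pt n) : Prop := ∀ y, f y ≤ f x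

/-- `P(T > m)`: the probability that none of the first `m` queries is a maximiser of `f`. -/
noncomputable def tailProb {k n : ℕ} (R : Rule k n) (f : Pt n → ℕ) (m : ℕ) : ℝ≥0∞ :=
  (queries R f m).toOuterMeasure {h | ∀ i, ¬ IsMaximiser f (h i)}

/-- `E[T] = ∑_{m ≥ 0} P(T > m)`, where `T` is the number of queries up to and including the first
query of a maximiser of `f` -/
noncomputable def ruleTime {k n : ℕ} (R : Rule k n) (f : Pt n → ℕ) : ℝ≥0∞ :=
  ∑' m : ℕ, tailProb R f m

/-- A `k`-ary unbiased black-box algorithm: its own randomness is a random seed `s`, drawn from an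
arbitrary probability space, and given the seed it follows the rule `rule s`.  The probability of
each possible next query is a measurable function of the seed. -/
structure Algorithm (k n : ℕ) where
  Seed : Type
  [mSeed : MeasurableSpace Seed]
  law : MeasureTheory.Measure Seed
  [prob : MeasureTheory.IsProbabilityMeasure law]
  rule : Seed → Rule k n
  meas : ∀ (m : ℕ) (v : Fin m → ℕ) (h : Fin m → Pt n) (y : Pt n),
    Measurable fun s => (rule s m v).op.dist (fun i => h ((rule s m v).idx i)) y

/-- the expected running time of `A` on `f` -/
noncomputable def Algorithm.expTime {k n : ℕ} (A : Algorithm k n) (f : Pt n → ℕ) : ℝ≥0∞ :=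
  @MeasureTheory.lintegral A.Seed A.mSeed A.law (fun s => ruleTime (A.rule s) f)

/-- The `k`-ary unbiased black-box complexity of `OneMax_n`: the infimum over all `k`-ary unbiased
algorithms of the largest expected running time on a function `OM_z`. -/
noncomputable def complexity (k n : ℕ) : ℝ≥0∞ :=
  ⨅ A : Algorithm k n, ⨆ z : Pt n, A.expTime (OM z)

/-- `B(n)`, the binary unbiased black-box complexity of `OneMax_n` -/
noncomputable def B (n : ℕ) : ℝ≥0∞ := complexity 2 n

/-! The class of algorithms is not empty: uniform sampling. -/

/-- the `0`-ary unbiased operator -/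
noncomputable def unifOp (n : ℕ) : UnbiasedOp 0 n where
  dist _ := PMF.uniformOfFintype (Pt n)
  xor_inv _ _ _ := by simp
  perm_inv _ _ _ := by simp

/-- uniform sampling -/
noncomputable def randomSearch (k n : ℕ) : Algorithm k n where
  Seed := Unit
  mSeed := inferInstance
  law := MeasureTheory.Measure.dirac ()
  prob := inferInstance
  rule _ _ _ := ⟨0, Nat.zero_le _, fun i => i.elim0, unifOp n⟩
  meas _ _ _ _ := measurable_const

instance (k n : ℕ) : Nonempty (Algorithm k n) := ⟨randomSearch k n⟩

end UBB
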