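import Mathlib

/-! The hull potential and its one-step change. -/

set_option linter.unusedSectionVars false

namespace BU860

open Finset
open scoped InnerProductSpace Pointwise

variable {ι : Type*} [Fintype ι] [DecidableEq ι]

/-- absolutely convex hull -/
def hul (S : Set (ι → ℝ)) : Set (ι → ℝ) := convexHull ℝ (S ∪ -S)

lemma hul_convex (S : Set (ι → ℝ)) : Convex ℝ (hul S) := convex_convexHull ℝ _

lemma subset_hul (S : Set (ι → ℝ)) : S ⊆ hul S :=
  fun _ hx => subset_convexHull ℝ _ (Or.inl hx)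

lemma neg_subset_hul {S : Set (ι → ℝ)} {x : ι → ℝ} (hx : x ∈ S) : -x ∈ hul S :=
  subset_convexHull ℝ _ (Or.inr (by simpa using hx))

lemma hul_neg {S : Set (ι → ℝ)} {z : ι → ℝ} (hz : z ∈ hul S) : -z ∈ hul S := by
  have h1 : -(S ∪ -S) = S ∪ -S := by
    rw [Set.union_neg, neg_neg, Set.union_comm]
  have h2 : -z ∈ -(hul S) := by simpa using hz
  unfold hul at h2 ⊢
  rw [← convexHull_neg, h1] at h2
  exact h2

lemma zero_mem_hul {S : Set (ι → ℝ)} (hS : S.Nonempty) : (0 : ι → ℝ) ∈ hul S := by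
  obtain ⟨x, hx⟩ := hS
  have h := (hul_convex S) (subset_hul S hx) (neg_subset_hul hx) (by norm_num : (0 : ℝ) ≤ 1 / 2)
    (by norm_num : (0 : ℝ) ≤ 1 / 2) (by norm_num)
  simpa using h

lemma hul_comb {S : Set (ι → ℝ)} (hS : S.Nonempty) {x y : ι → ℝ} (hx : x ∈ hul S)
    (hy : y ∈ hul S) {p q : ℝ} (hpq : |p| + |q| ≤ 1) : p • x + q • y ∈ hul S := by
  have h0 := zero_mem_hul hS
  -- signs
  have key : ∀ {x : ι → ℝ}, x ∈ hul S → ∀ p : ℝ, ∃ x' ∈ hul S, p • x = |p| • x' := by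
    intro x hx p
    rcases le_total 0 p with h | h
    · exact ⟨x, hx, by rw [abs_of_nonneg h]⟩
    · exact ⟨-x, hul_neg hx, by rw [abs_of_nonpos h]; simp⟩
  obtain ⟨x', hx', ex⟩ := key hx p
  obtain ⟨y', hy', ey⟩ := key hy q
  rw [ex, ey]
  rcases (add_nonneg (abs_nonneg p) (abs_nonneg q)).lt_or_eq with hpos | hzero
  · have h1 : (|p| / (|p| + |q|)) • x' + (|q| / (|p| + |q|)) • y' ∈ hul S := by
      apply (hul_convex S) hx' hy' (by positivity) (by positivity)
      field_simp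
    have h2 := (hul_convex S).smul_mem_of_zero_mem h0 h1 ⟨hpos.le, hpq⟩
    rw [smul_add, smul_smul, smul_smul, mul_div_cancel₀ _ hpos.ne',
      mul_div_cancel₀ _ hpos.ne'] at h2
    exact h2
  · have hp : |p| = 0 := by have := abs_nonneg p; have := abs_nonneg q; linarith
    have hq : |q| = 0 := by have := abs_nonneg p; have := abs_nonneg q; linarith
    rw [hp, hq]; simpa using h0

lemma hul_le_span (S : Set (ι → ℝ)) {z : ι → ℝ} (hz : z ∈ hul S) : z ∈ Submodule.span ℝ S := by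
  have h1 : hul S ⊆ (Submodule.span ℝ S : Set (ι → ℝ)) := by
    apply convexHull_min _ (Submodule.convex _)
    rintro x (hx | hx)
    · exact Submodule.subset_span hx
    · have : -x ∈ Submodule.span ℝ S := Submodule.subset_span hx
      simpa using Submodule.neg_mem _ this
  exact h1 hz

lemma hul_bound {S : Set (ι → ℝ)} (hS : ∀ v ∈ S, ∀ k, |v k| ≤ 1) {z : ι → ℝ} (hz : z ∈ hul S)
    (k : ι) : |z k| ≤ 1 := by
  have h1 : hul S ⊆ {v : ι → ℝ | |v k| ≤ 1} := by
    apply convexHull_min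
    · rintro x (hx | hx)
      · exact hS x hx k
      · have := hS (-x) hx k
        simpa using this
    · intro x hx y hy a b ha hb hab
      simp only [Set.mem_ofPred_eq, Pi.add_apply, Pi.smul_apply, smul_eq_mul] at *
      calc |a * x k + b * y k| ≤ |a * x k| + |b * y k| := abs_add_le _ _
        _ = a * |x k| + b * |y k| := by rw [abs_mul, abs_mul, abs_of_nonneg ha, abs_of_nonneg hb]
        _ ≤ a * 1 + b * 1 := by gcongr
        _ = 1 := by linarith
  exact h1 hz

lemma hul_compact {S : Set (ι → ℝ)} (hS : S.Finite) : IsCompact (hul S) := by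
  apply Set.Finite.isCompact_convexHull
  exact hS.union hS.neg

lemma hul_mono {S T : Set (ι → ℝ)} (h : S ⊆ T) : hul S ⊆ hul T := by
  apply convexHull_mono
  apply Set.union_subset_union h
  exact Set.neg_subset_neg.mpr h

lemma hul_insert {S : Set (ι → ℝ)} (hS : S.Nonempty) (X : ι → ℝ) {z : ι → ℝ}
    (hz : z ∈ hul (insert X S)) :
    ∃ θ s : ℝ, ∃ z₁ ∈ hul S, 0 ≤ s ∧ |θ| + s ≤ 1 ∧ z = θ • X + s • z₁ := by
  have h1 : (insert X S ∪ -(insert X S)) = insert X (insert (-X) (S ∪ -S)) := by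
    ext v
    simp only [Set.mem_union, Set.mem_insert_iff, Set.mem_neg]
    constructor
    · rintro ((h | h) | (h | h))
      · exact Or.inl h
      · exact Or.inr (Or.inr (Or.inl h))
      · right; left; rw [← h]; simp
      · exact Or.inr (Or.inr (Or.inr h))
    · rintro (h | h | h | h)
      · exact Or.inl (Or.inl h)
      · right; left; rw [h]; simp
      · exact Or.inl (Or.inr h)
      · exact Or.inr (Or.inr h)
  have hne : (S ∪ -S).Nonempty := hS.mono Set.subset_union_left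
  unfold hul at hz
  rw [h1, convexHull_insert (Set.insert_nonempty _ _), convexHull_insert hne] at hz
  rw [mem_convexJoin] at hz
  obtain ⟨X', hX', z₂, hz₂, hseg⟩ := hz
  rw [Set.mem_singleton_iff] at hX'
  subst hX'
  rw [mem_convexJoin] at hz₂
  obtain ⟨Y', hY', z₁, hz₁, hseg₂⟩ := hz₂
  rw [Set.mem_singleton_iff] at hY'
  subst hY'
  obtain ⟨a, b, ha, hb, hab, rfl⟩ := hseg
  obtain ⟨c, d, hc, hd, hcd, rfl⟩ := hseg₂
  refine ⟨a - b * c, b * d, z₁, hz₁, by positivity, ?_, ?_⟩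
  · have h2 : |a - b * c| ≤ a + b * c := by
      rw [abs_le]; constructor <;> nlinarith [mul_nonneg hb hc]
    have h3 : a + b * c + b * d = 1 := by
      have : b * c + b * d = b := by rw [← mul_add, hcd, mul_one]
      linarith
    linarith
  · rw [smul_add, smul_smul, smul_smul, sub_smul, smul_neg, ← add_assoc]
    rw [sub_eq_add_neg]

/-- weighted square distance to the target -/
noncomputable def nrm (σ ω z : ι → ℝ) : ℝ := ∑ k, ω k * (σ k - z k) ^ 2

/-- the potential -/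
noncomputable def phi (σ ω : ι → ℝ) (S : Set (ι → ℝ)) : ℝ := sInf (nrm σ ω '' hul S)

lemma nrm_nonneg {σ ω z : ι → ℝ} (hω : ∀ k, 0 ≤ ω k) : 0 ≤ nrm σ ω z :=
  Finset.sum_nonneg fun k _ => mul_nonneg (hω k) (sq_nonneg _)

lemma phi_le {σ ω z : ι → ℝ} {S : Set (ι → ℝ)} (hω : ∀ k, 0 ≤ ω k) (hz : z ∈ hul S) :
    phi σ ω S ≤ nrm σ ω z := by
  apply csInf_le
  · refine ⟨0, ?_⟩
    rintro _ ⟨v, _, rfl⟩
    exact nrm_nonneg hω
  · exact ⟨z, hz, rfl⟩

lemma le_phi {σ ω : ι → ℝ} {S : Set (ι → ℝ)} (hS : S.Nonempty) {c : ℝ}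
    (h : ∀ z ∈ hul S, c ≤ nrm σ ω z) : c ≤ phi σ ω S := by
  apply le_csInf
  · exact ⟨_, 0, zero_mem_hul hS, rfl⟩
  · rintro _ ⟨v, hv, rfl⟩
    exact h v hv

lemma exists_min {σ ω : ι → ℝ} {S : Set (ι → ℝ)} (hS : S.Nonempty) (hf : S.Finite)
    (hω : ∀ k, 0 ≤ ω k) :
    ∃ x ∈ hul S, phi σ ω S = nrm σ ω x ∧
      ∀ z ∈ hul S, ∑ k, ω k * ((σ k - x k) * (z k - x k)) ≤ 0 := by
  have hc : Continuous (nrm σ ω) := by
    unfold nrm; fun_prop
  obtain ⟨x, hx, hmin⟩ := (hul_compact hf).exists_isMinOn ⟨0, zero_mem_hul hS⟩ hc.continuousOn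
  refine ⟨x, hx, ?_, ?_⟩
  · apply le_antisymm (phi_le hω hx)
    exact le_phi hS (fun z hz => hmin hz)
  · intro z hz
    -- perturbation argument
    set B := ∑ k, ω k * (z k - x k) ^ 2 with hB
    set A := ∑ k, ω k * ((σ k - x k) * (z k - x k)) with hA
    have hB0 : 0 ≤ B := Finset.sum_nonneg fun k _ => mul_nonneg (hω k) (sq_nonneg _)
    have h1 : ∀ s : ℝ, 0 < s → s ≤ 1 → 2 * A ≤ s * B := by
      intro s hs0 hs1
      have hmem : (1 - s) • x + s • z ∈ hul S :=
        (hul_convex S) hx hz (by linarith) hs0.le (by ring)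
      have h2 : nrm σ ω x ≤ nrm σ ω ((1 - s) • x + s • z) := hmin hmem
      have h3 : nrm σ ω ((1 - s) • x + s • z) = nrm σ ω x - 2 * s * A + s ^ 2 * B := by
        unfold nrm
        rw [hA, hB, Finset.mul_sum, Finset.mul_sum, ← Finset.sum_sub_distrib,
          ← Finset.sum_add_distrib]
        apply Finset.sum_congr rfl; intro k _
        simp only [Pi.add_apply, Pi.smul_apply, smul_eq_mul]
        ring
      rw [h3] at h2
      have h4 : s * (2 * A) ≤ s * (s * B) := by nlinarith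
      exact le_of_mul_le_mul_left h4 hs0
    by_contra hcon
    push Not at hcon
    rcases hB0.lt_or_eq with hBp | hBz
    · set s := min 1 (A / B) with hs
      have hs0 : 0 < s := lt_min one_pos (by positivity)
      have h2 := h1 s hs0 (min_le_left _ _)
      have h3 : s * B ≤ A := by
        have : s ≤ A / B := min_le_right _ _
        calc s * B ≤ A / B * B := mul_le_mul_of_nonneg_right this hB0
          _ = A := by field_simp
      linarith
    · have h2 := h1 1 one_pos le_rfl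
      rw [← hBz] at h2
      linarith

/-- one step of the potential, deterministic part -/
theorem one_step {σ ω : ι → ℝ} {S : Set (ι → ℝ)} (hS : S.Nonempty) (hf : S.Finite)
    (hb : ∀ v ∈ S, ∀ k, |v k| ≤ 1) (hσ : ∀ k, |σ k| ≤ 1) (hω : ∀ k, 0 ≤ ω k)
    {ε : ℝ} (hε : 0 ≤ ε) (hεn : ε * (4 * (Fintype.card ι : ℝ)) ≤ 1)
    (b : ι → EuclideanSpace ℝ ι)
    (hbr : ∀ u ∈ Submodule.span ℝ S, ∀ (y : ι → ℝ) (θ : ℝ),
        θ ^ 2 * (∑ k, ω k * y k ^ 2 - ‖∑ k, (y k * ω k) • b k‖ ^ 2) ≤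
          ∑ k, ω k * (u k + θ * y k) ^ 2 + ε * ∑ k, u k ^ 2) :
    ∃ r : ι → ℝ, (∀ k, |r k| ≤ 2) ∧ ∀ m ∈ hul S, ∀ (y : ι → ℝ) (G : ℝ),
      (∀ θ : ℝ, θ ^ 2 ≤ 1 → 2 * θ * (∑ k, ω k * r k * y k) -
        θ ^ 2 * (∑ k, ω k * y k ^ 2 - ‖∑ k, (y k * ω k) • b k‖ ^ 2) ≤ G) →
      phi σ ω S - 1 - G ≤ phi σ ω (insert (m + y) S) := by
  obtain ⟨x, hx, hphi, hvar⟩ := exists_min (σ := σ) hS hf hω
  refine ⟨fun k => σ k - x k, ?_, ?_⟩
  · intro k
    have h1 := hul_bound hb hx k
    have h2 := hσ k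
    calc |σ k - x k| ≤ |σ k| + |x k| := abs_sub _ _
      _ ≤ 2 := by linarith
  · intro m hm y G hG
    apply le_phi (Set.insert_nonempty _ _)
    intro z' hz'
    obtain ⟨θ, s, z₁, hz₁, hs0, hθs, rfl⟩ := hul_insert hS _ hz'
    set z := θ • m + s • z₁ with hz
    have hzmem : z ∈ hul S := by
      apply hul_comb hS hm hz₁
      rw [abs_of_nonneg hs0]; exact hθs
    have hθ : θ ^ 2 ≤ 1 := by
      have h1 : |θ| ≤ 1 := by linarith
      rw [← sq_abs]
      calc |θ| ^ 2 ≤ 1 ^ 2 := pow_le_pow_left₀ (abs_nonneg _) h1 2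
        _ = 1 := one_pow 2
    set u : ι → ℝ := z - x with hu
    have humem : u ∈ Submodule.span ℝ S :=
      Submodule.sub_mem _ (hul_le_span S hzmem) (hul_le_span S hx)
    have h1 := hbr u humem y θ
    have h2 : ε * ∑ k, u k ^ 2 ≤ 1 := by
      have h3 : ∑ k, u k ^ 2 ≤ 4 * (Fintype.card ι : ℝ) := by
        have h4 : ∀ k ∈ (Finset.univ : Finset ι), u k ^ 2 ≤ 4 := by
          intro k _
          have h5 := hul_bound hb hzmem k
          have h6 := hul_bound hb hx k
          have h7 : |u k| ≤ 2 := by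
            rw [hu, Pi.sub_apply]
            calc |z k - x k| ≤ |z k| + |x k| := abs_sub _ _
              _ ≤ 2 := by linarith
          rw [← sq_abs]
          calc |u k| ^ 2 ≤ 2 ^ 2 := pow_le_pow_left₀ (abs_nonneg _) h7 2
            _ = 4 := by norm_num
        have h8 := Finset.sum_le_card_nsmul _ _ _ h4
        rw [nsmul_eq_mul, Finset.card_univ] at h8
        linarith
      calc ε * ∑ k, u k ^ 2 ≤ ε * (4 * (Fintype.card ι : ℝ)) :=
            mul_le_mul_of_nonneg_left h3 hε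
        _ ≤ 1 := hεn
    have h3 := hG θ hθ
    have h4 := hvar z hzmem
    have h5 : nrm σ ω (θ • (m + y) + s • z₁) = nrm σ ω x -
        2 * (∑ k, ω k * ((σ k - x k) * (z k - x k))) -
        2 * θ * (∑ k, ω k * (σ k - x k) * y k) + ∑ k, ω k * (u k + θ * y k) ^ 2 := by
      unfold nrm
      rw [Finset.mul_sum, Finset.mul_sum, ← Finset.sum_sub_distrib,
        ← Finset.sum_sub_distrib, ← Finset.sum_add_distrib]
      apply Finset.sum_congr rfl; intro k _
      simp only [hu, hz, Pi.add_apply, Pi.smul_apply, Pi.sub_apply, smul_eq_mul]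
      ring
    rw [h5, hphi]
    linarith

end BU860
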