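import Mathlib

/-! Moments of swap-invariant weights on a slice of the cube. -/

set_option linter.unusedSectionVars false
set_option linter.unnecessarySeqFocus false

namespace BU860

open Finset

variable {ι : Type*} [Fintype ι] [DecidableEq ι]

/-- real `0/1` value of a coordinate -/
noncomputable def xi (F : ι → Bool) (k : ι) : ℝ := if F k = true then 1 else 0

/-- exchange coordinates `k` and `l` -/
def swp (k l : ι) (F : ι → Bool) : ι → Bool := fun i => F (Equiv.swap k l i)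

omit [Fintype ι] in
lemma swp_swp (k l : ι) (F : ι → Bool) : swp k l (swp k l F) = F := by
  funext i; simp [swp]

/-- `swp` as an equivalence -/
def swpE (k l : ι) : (ι → Bool) ≃ (ι → Bool) := ⟨swp k l, swp k l, swp_swp k l, swp_swp k l⟩

omit [Fintype ι] in
lemma xi_swp (k l : ι) (F : ι → Bool) (i : ι) : xi (swp k l F) i = xi F (Equiv.swap k l i) := rfl

omit [Fintype ι] [DecidableEq ι] in
lemma xi_sq (F : ι → Bool) (k : ι) : xi F k ^ 2 = xi F k := by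
  unfold xi; split_ifs <;> norm_num

omit [Fintype ι] [DecidableEq ι] in
lemma xi_cases (F : ι → Bool) (k : ι) : xi F k = 0 ∨ xi F k = 1 := by
  unfold xi; split_ifs <;> norm_num

/-- nonnegative weight on the cube, supported on `|F ∩ E| = a`, invariant under swaps inside `E` -/
structure SliceW (E : Finset ι) (a : ℕ) (w : (ι → Bool) → ℝ) : Prop where
  nonneg : ∀ F, 0 ≤ w F
  supp : ∀ F, w F ≠ 0 → (∑ k ∈ E, xi F k) = a
  inv : ∀ k ∈ E, ∀ l ∈ E, ∀ F, w (swp k l F) = w F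

variable {E : Finset ι} {a : ℕ} {w : (ι → Bool) → ℝ}

lemma SliceW.sum_swp (h : SliceW E a w) {k l : ι} (hk : k ∈ E) (hl : l ∈ E)
    (G : (ι → Bool) → ℝ) : ∑ F, w F * G (swp k l F) = ∑ F, w F * G F := by
  rw [← Equiv.sum_comp (swpE k l) (fun F => w F * G F)]
  apply Finset.sum_congr rfl
  intro F _
  show w F * G (swp k l F) = w (swp k l F) * G (swp k l F)
  rw [h.inv k hk l hl]

lemma SliceW.exchange (h : SliceW E a w) {k l : ι} (hk : k ∈ E) (hl : l ∈ E)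
    (f Q : (ι → Bool) → ℝ) :
    ∑ F, w F * (f F * (Q F - Q (swp k l F))) =
      (1 / 2) * ∑ F, w F * ((f F - f (swp k l F)) * (Q F - Q (swp k l F))) := by
  have h1 : ∑ F, w F * (f (swp k l F) * Q (swp k l F)) = ∑ F, w F * (f F * Q F) :=
    h.sum_swp hk hl (fun F => f F * Q F)
  have h2 : ∑ F, w F * (f (swp k l F) * Q F) = ∑ F, w F * (f F * Q (swp k l F)) := by
    have := h.sum_swp hk hl (fun F => f F * Q (swp k l F))
    simp only [swp_swp] at this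
    exact this
  have e1 : ∑ F, w F * ((f F - f (swp k l F)) * (Q F - Q (swp k l F))) =
      ∑ F, w F * (f F * Q F) - ∑ F, w F * (f F * Q (swp k l F))
      - ∑ F, w F * (f (swp k l F) * Q F) + ∑ F, w F * (f (swp k l F) * Q (swp k l F)) := by
    rw [← Finset.sum_sub_distrib, ← Finset.sum_sub_distrib, ← Finset.sum_add_distrib]
    apply Finset.sum_congr rfl
    intro F _; ring
  have e2 : ∑ F, w F * (f F * (Q F - Q (swp k l F))) =
      ∑ F, w F * (f F * Q F) - ∑ F, w F * (f F * Q (swp k l F)) := by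
    rw [← Finset.sum_sub_distrib]
    apply Finset.sum_congr rfl
    intro F _; ring
  rw [e1, e2, h1, h2]; ring

/-- centred vector sum -/
noncomputable def cs {H : Type*} [AddCommGroup H] [Module ℝ H] (E : Finset ι) (p : ℝ)
    (c : ι → H) (F : ι → Bool) : H := ∑ k ∈ E, (xi F k - p) • c k

omit [Fintype ι] in
lemma cs_swp {H : Type*} [AddCommGroup H] [Module ℝ H] (E : Finset ι) (p : ℝ)
    (c : ι → H) (F : ι → Bool) {k l : ι} (hk : k ∈ E) (hl : l ∈ E) :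
    cs E p c (swp k l F) = cs E p c F - (xi F k - xi F l) • (c k - c l) := by
  by_cases hkl : k = l
  · subst hkl
    have : swp k k F = F := by funext i; simp [swp]
    rw [this]; simp
  · have h1 : cs E p c (swp k l F) - cs E p c F =
        ∑ j ∈ E, (xi F (Equiv.swap k l j) - xi F j) • c j := by
      unfold cs
      rw [← Finset.sum_sub_distrib]
      apply Finset.sum_congr rfl
      intro j _
      rw [xi_swp, ← sub_smul]
      congr 1; ring
    have h2 : ∑ j ∈ E, (xi F (Equiv.swap k l j) - xi F j) • c j =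
        ∑ j ∈ ({k, l} : Finset ι), (xi F (Equiv.swap k l j) - xi F j) • c j := by
      symm
      apply Finset.sum_subset
      · intro j hj
        rw [Finset.mem_insert, Finset.mem_singleton] at hj
        rcases hj with rfl | rfl <;> assumption
      · intro j _ hj
        rw [Finset.mem_insert, Finset.mem_singleton, not_or] at hj
        rw [Equiv.swap_apply_of_ne_of_ne hj.1 hj.2]
        simp
    rw [Finset.sum_pair hkl, Equiv.swap_apply_left, Equiv.swap_apply_right] at h2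
    have h3 : cs E p c (swp k l F) = cs E p c F +
        ((xi F l - xi F k) • c k + (xi F k - xi F l) • c l) := by
      rw [← h2, ← h1]; abel
    rw [h3, smul_sub]
    have : (xi F l - xi F k) • c k = - ((xi F k - xi F l) • c k) := by
      rw [← neg_smul]; congr 1; ring
    rw [this]; abel

omit [Fintype ι] [DecidableEq ι] in
/-- double sum identity -/
lemma dsum {H : Type*} [AddCommGroup H] [Module ℝ H] (E : Finset ι) (z : ι → ℝ) (c : ι → H)
    (hz : ∑ k ∈ E, z k = 0) :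
    ∑ k ∈ E, ∑ l ∈ E, (z k - z l) • (c k - c l) = (2 * (E.card : ℝ)) • ∑ k ∈ E, z k • c k := by
  have h1 : ∀ k ∈ E, ∑ l ∈ E, (z k - z l) • (c k - c l) =
      (E.card : ℝ) • (z k • c k) - z k • (∑ l ∈ E, c l) + ∑ l ∈ E, z l • c l := by
    intro k _
    have : ∀ l ∈ E, (z k - z l) • (c k - c l) =
        z k • c k - z k • c l - z l • c k + z l • c l := by
      intro l _
      rw [sub_smul, smul_sub, smul_sub]; abel
    have e0 : ∑ l ∈ E, z l • c k = 0 := by rw [← Finset.sum_smul, hz, zero_smul]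
    rw [Finset.sum_congr rfl this, Finset.sum_add_distrib, Finset.sum_sub_distrib,
      Finset.sum_sub_distrib, e0, sub_zero, Finset.sum_const,
      Finset.smul_sum, Nat.cast_smul_eq_nsmul]
  have e1 : ∑ k ∈ E, z k • ∑ l ∈ E, c l = 0 := by rw [← Finset.sum_smul, hz, zero_smul]
  rw [Finset.sum_congr rfl h1, Finset.sum_add_distrib, Finset.sum_sub_distrib,
    e1, sub_zero, ← Finset.smul_sum, Finset.sum_const,
    ← Nat.cast_smul_eq_nsmul ℝ, two_mul, add_smul]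

/-- weighted sum -/
noncomputable def Ex (w : (ι → Bool) → ℝ) (f : (ι → Bool) → ℝ) : ℝ := ∑ F, w F * f F

lemma Ex_add (f g : (ι → Bool) → ℝ) : Ex w (fun F => f F + g F) = Ex w f + Ex w g := by
  unfold Ex; rw [← Finset.sum_add_distrib]; apply Finset.sum_congr rfl; intro F _; ring

lemma Ex_sub (f g : (ι → Bool) → ℝ) : Ex w (fun F => f F - g F) = Ex w f - Ex w g := by
  unfold Ex; rw [← Finset.sum_sub_distrib]; apply Finset.sum_congr rfl; intro F _; ring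

lemma Ex_mul (r : ℝ) (f : (ι → Bool) → ℝ) : Ex w (fun F => r * f F) = r * Ex w f := by
  unfold Ex; rw [Finset.mul_sum]; apply Finset.sum_congr rfl; intro F _; ring

lemma Ex_const (r : ℝ) : Ex w (fun _ => r) = r * ∑ F, w F := by
  unfold Ex; rw [Finset.mul_sum]; apply Finset.sum_congr rfl; intro F _; ring

lemma Ex_sum {κ : Type*} (s : Finset κ) (f : κ → (ι → Bool) → ℝ) :
    Ex w (fun F => ∑ k ∈ s, f k F) = ∑ k ∈ s, Ex w (f k) := by
  unfold Ex; rw [Finset.sum_comm]; apply Finset.sum_congr rfl; intro F _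
  rw [Finset.mul_sum]

lemma SliceW.Ex_le (h : SliceW E a w) {f g : (ι → Bool) → ℝ}
    (hfg : ∀ F, w F ≠ 0 → f F ≤ g F) : Ex w f ≤ Ex w g := by
  unfold Ex; apply Finset.sum_le_sum; intro F _
  by_cases h0 : w F = 0
  · simp [h0]
  · exact mul_le_mul_of_nonneg_left (hfg F h0) (h.nonneg F)

lemma SliceW.Ex_congr (h : SliceW E a w) {f g : (ι → Bool) → ℝ}
    (hfg : ∀ F, w F ≠ 0 → f F = g F) : Ex w f = Ex w g :=
  le_antisymm (h.Ex_le fun F hF => (hfg F hF).le) (h.Ex_le fun F hF => (hfg F hF).ge)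

lemma SliceW.mass_nonneg (h : SliceW E a w) : 0 ≤ ∑ F, w F :=
  Finset.sum_nonneg fun F _ => h.nonneg F

lemma SliceW.Ex_nonneg (h : SliceW E a w) {f : (ι → Bool) → ℝ}
    (hf : ∀ F, w F ≠ 0 → 0 ≤ f F) : 0 ≤ Ex w f := by
  have := h.Ex_le (f := fun _ => 0) (g := f) hf
  rw [Ex_const, zero_mul] at this
  exact this

lemma SliceW.mean (h : SliceW E a w) {k : ι} (hk : k ∈ E) :
    (E.card : ℝ) * Ex w (fun F => xi F k) = a * ∑ F, w F := by
  have h1 : ∀ l ∈ E, Ex w (fun F => xi F l) = Ex w (fun F => xi F k) := by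
    intro l hl
    have := h.sum_swp hk hl (fun F => xi F k)
    simp only [xi_swp, Equiv.swap_apply_left] at this
    exact this
  have h2 : ∑ l ∈ E, Ex w (fun F => xi F l) = (E.card : ℝ) * Ex w (fun F => xi F k) := by
    rw [Finset.sum_congr rfl h1, Finset.sum_const, nsmul_eq_mul]
  rw [← h2, ← Ex_sum, ← Ex_const]
  apply h.Ex_congr
  intro F hF
  exact h.supp F hF

/-- the density -/
noncomputable def pr (E : Finset ι) (a : ℕ) : ℝ := (a : ℝ) / E.card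

omit [Fintype ι] [DecidableEq ι] in
lemma card_mul_pr {k : ι} (hk : k ∈ E) : (E.card : ℝ) * pr E a = a := by
  unfold pr
  have : (E.card : ℝ) ≠ 0 := by
    have := Finset.card_pos.mpr ⟨k, hk⟩
    positivity
  field_simp

omit [Fintype ι] [DecidableEq ι] in
lemma card_pos' {k : ι} (hk : k ∈ E) : (0 : ℝ) < E.card := by
  have := Finset.card_pos.mpr ⟨k, hk⟩
  positivity

lemma SliceW.mean' (h : SliceW E a w) {k : ι} (hk : k ∈ E) :
    Ex w (fun F => xi F k) = pr E a * ∑ F, w F := by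
  have h1 := h.mean hk
  have h2 := card_mul_pr (a := a) hk
  have h3 := card_pos' hk
  have : (E.card : ℝ) * Ex w (fun F => xi F k) = (E.card : ℝ) * (pr E a * ∑ F, w F) := by
    rw [h1, ← mul_assoc, h2]
  exact mul_left_cancel₀ h3.ne' this

omit [Fintype ι] in
lemma SliceW.zsum (h : SliceW E a w) {F : ι → Bool} (hF : w F ≠ 0) :
    ∑ k ∈ E, (xi F k - pr E a) = 0 := by
  rw [Finset.sum_sub_distrib, h.supp F hF, Finset.sum_const, nsmul_eq_mul]
  rcases Finset.eq_empty_or_nonempty E with h0 | ⟨k, hk⟩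
  · subst h0
    have := h.supp F hF
    simp at this
    simp [← this]
  · rw [card_mul_pr hk]; ring

omit [Fintype ι] in
lemma SliceW.eta (h : SliceW E a w) {F : ι → Bool} (hF : w F ≠ 0) (k : ι) :
    ∑ l ∈ E, (xi F k - xi F l) ^ 2 = a + ((E.card : ℝ) - 2 * a) * xi F k := by
  have : ∀ l ∈ E, (xi F k - xi F l) ^ 2 = xi F k - 2 * xi F k * xi F l + xi F l := by
    intro l _
    have h1 := xi_sq F k
    have h2 := xi_sq F l
    ring_nf
    rw [h1, h2]; ring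
  rw [Finset.sum_congr rfl this, Finset.sum_add_distrib, Finset.sum_sub_distrib,
    ← Finset.mul_sum, h.supp F hF, Finset.sum_const, nsmul_eq_mul]
  ring

lemma SliceW.Ex_eta (h : SliceW E a w) {k : ι} (hk : k ∈ E) :
    Ex w (fun F => ∑ l ∈ E, (xi F k - xi F l) ^ 2) =
      2 * (E.card : ℝ) * (pr E a * (1 - pr E a)) * ∑ F, w F := by
  rw [h.Ex_congr (g := fun F => a + ((E.card : ℝ) - 2 * a) * xi F k)
    (fun F hF => h.eta hF k), Ex_add, Ex_const, Ex_mul, h.mean' hk,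
    ← card_mul_pr (a := a) hk]
  ring

/-- summing a one-index function against squared differences -/
lemma SliceW.Ex_pair (h : SliceW E a w) (φ : ι → ℝ) :
    Ex w (fun F => ∑ k ∈ E, ∑ l ∈ E, (xi F k - xi F l) ^ 2 * (φ k + φ l)) =
      4 * (E.card : ℝ) * (pr E a * (1 - pr E a)) * (∑ k ∈ E, φ k) * ∑ F, w F := by
  have h1 : ∀ F : ι → Bool, ∑ k ∈ E, ∑ l ∈ E, (xi F k - xi F l) ^ 2 * (φ k + φ l) =
      2 * ∑ k ∈ E, φ k * ∑ l ∈ E, (xi F k - xi F l) ^ 2 := by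
    intro F
    have e1 : ∑ k ∈ E, ∑ l ∈ E, (xi F k - xi F l) ^ 2 * (φ k + φ l) =
        ∑ k ∈ E, ∑ l ∈ E, (xi F k - xi F l) ^ 2 * φ k
        + ∑ k ∈ E, ∑ l ∈ E, (xi F k - xi F l) ^ 2 * φ l := by
      rw [← Finset.sum_add_distrib]
      apply Finset.sum_congr rfl; intro k _
      rw [← Finset.sum_add_distrib]
      apply Finset.sum_congr rfl; intro l _
      ring
    have e2 : ∑ k ∈ E, ∑ l ∈ E, (xi F k - xi F l) ^ 2 * φ l =
        ∑ k ∈ E, ∑ l ∈ E, (xi F k - xi F l) ^ 2 * φ k := by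
      rw [Finset.sum_comm]
      apply Finset.sum_congr rfl; intro k _
      apply Finset.sum_congr rfl; intro l _
      ring
    have e3 : ∑ k ∈ E, ∑ l ∈ E, (xi F k - xi F l) ^ 2 * φ k =
        ∑ k ∈ E, φ k * ∑ l ∈ E, (xi F k - xi F l) ^ 2 := by
      apply Finset.sum_congr rfl; intro k _
      rw [Finset.mul_sum]
      apply Finset.sum_congr rfl; intro l _
      ring
    rw [e1, e2, e3]; ring
  simp only [h1]
  rw [Ex_mul, Ex_sum]
  have h2 : ∀ k ∈ E, Ex w (fun F => φ k * ∑ l ∈ E, (xi F k - xi F l) ^ 2) =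
      φ k * (2 * (E.card : ℝ) * (pr E a * (1 - pr E a)) * ∑ F, w F) := by
    intro k hk
    rw [Ex_mul, h.Ex_eta hk]
  rw [Finset.sum_congr rfl h2, ← Finset.sum_mul]
  ring

omit [Fintype ι] in
/-- exchange identity summed over pairs, for vector sums: `∑_{k,l} (S - S^{kl}) = 2 d S`. -/
lemma SliceW.sum_sub_cs {H : Type*} [AddCommGroup H] [Module ℝ H] (h : SliceW E a w)
    (c : ι → H) {F : ι → Bool} (hF : w F ≠ 0) :
    ∑ k ∈ E, ∑ l ∈ E, (xi F k - xi F l) • (c k - c l) =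
      (2 * (E.card : ℝ)) • cs E (pr E a) c F := by
  have := dsum E (fun k => xi F k - pr E a) c (h.zsum hF)
  unfold cs
  rw [← this]
  apply Finset.sum_congr rfl; intro k _
  apply Finset.sum_congr rfl; intro l _
  congr 1; ring

/-- variance of a linear functional -/
theorem SliceW.linear (h : SliceW E a w) (γ : ι → ℝ) :
    Ex w (fun F => (cs E (pr E a) γ F) ^ 2) ≤
      2 * (pr E a * (1 - pr E a)) * (∑ k ∈ E, γ k ^ 2) * ∑ F, w F := by
  rcases Finset.eq_empty_or_nonempty E with h0 | ⟨k0, hk0⟩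
  · subst h0
    simp [cs, Ex]
  · have hd := card_pos' hk0
    set d : ℝ := (E.card : ℝ) with hdd
    set L := cs E (pr E a) γ with hL
    have e1 : Ex w (fun F => ∑ k ∈ E, ∑ l ∈ E, L F * (L F - L (swp k l F))) =
        2 * d * Ex w (fun F => (L F) ^ 2) := by
      rw [← Ex_mul]
      apply h.Ex_congr
      intro F hF
      have e2 : ∑ k ∈ E, ∑ l ∈ E, L F * (L F - L (swp k l F)) =
          L F * ∑ k ∈ E, ∑ l ∈ E, (xi F k - xi F l) • (γ k - γ l) := by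
        rw [Finset.mul_sum]
        apply Finset.sum_congr rfl; intro k hk
        rw [Finset.mul_sum]
        apply Finset.sum_congr rfl; intro l hl
        rw [hL, cs_swp E _ γ F hk hl]
        ring
      rw [e2, h.sum_sub_cs γ hF, smul_eq_mul]
      ring
    have e3 : Ex w (fun F => ∑ k ∈ E, ∑ l ∈ E, L F * (L F - L (swp k l F))) =
        ∑ k ∈ E, ∑ l ∈ E, (1 / 2) * Ex w (fun F => (L F - L (swp k l F)) * (L F - L (swp k l F))) := by
      rw [Ex_sum]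
      apply Finset.sum_congr rfl; intro k hk
      rw [Ex_sum]
      apply Finset.sum_congr rfl; intro l hl
      exact h.exchange hk hl L L
    have e4 : ∑ k ∈ E, ∑ l ∈ E, (1 / 2) * Ex w (fun F => (L F - L (swp k l F)) * (L F - L (swp k l F)))
        ≤ Ex w (fun F => ∑ k ∈ E, ∑ l ∈ E, (xi F k - xi F l) ^ 2 * (γ k ^ 2 + γ l ^ 2)) := by
      rw [Ex_sum]
      apply Finset.sum_le_sum; intro k hk
      rw [Ex_sum]
      apply Finset.sum_le_sum; intro l hl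
      rw [← Ex_mul]
      apply h.Ex_le
      intro F _
      rw [hL, cs_swp E _ γ F hk hl, smul_eq_mul]
      have : (xi F k - xi F l) ^ 2 * (γ k ^ 2 + γ l ^ 2) -
        1 / 2 * ((cs E (pr E a) γ F - (cs E (pr E a) γ F - (xi F k - xi F l) * (γ k - γ l))) *
        (cs E (pr E a) γ F - (cs E (pr E a) γ F - (xi F k - xi F l) * (γ k - γ l)))) =
        1 / 2 * ((xi F k - xi F l) * (γ k + γ l)) ^ 2 := by ring
      have h2 : 0 ≤ 1 / 2 * ((xi F k - xi F l) * (γ k + γ l)) ^ 2 := by positivity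
      linarith
    rw [h.Ex_pair (fun k => γ k ^ 2)] at e4
    rw [← e3, e1] at e4
    have h5 : 2 * d * Ex w (fun F => (L F) ^ 2) ≤
        2 * d * (2 * (pr E a * (1 - pr E a)) * (∑ k ∈ E, γ k ^ 2) * ∑ F, w F) := by
      refine e4.trans (le_of_eq ?_)
      ring
    exact le_of_mul_le_mul_left h5 (by positivity)

omit [Fintype ι] in
lemma SliceW.pq_nonneg (h : SliceW E a w) {F : ι → Bool} (hF : w F ≠ 0) :
    0 ≤ pr E a * (1 - pr E a) := by
  have h1 := h.supp F hF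
  have h2 : (a : ℝ) ≤ E.card := by
    rw [← h1]
    calc ∑ k ∈ E, xi F k ≤ ∑ k ∈ E, (1 : ℝ) := by
          apply Finset.sum_le_sum; intro k _
          rcases xi_cases F k with h | h <;> rw [h] <;> norm_num
      _ = E.card := by simp
  have h3 : 0 ≤ pr E a := by unfold pr; positivity
  have h4 : pr E a ≤ 1 := by
    unfold pr
    exact div_le_one_of_le₀ h2 (by positivity)
  exact mul_nonneg h3 (by linarith)

open scoped InnerProductSpace

variable {H : Type*} [NormedAddCommGroup H] [InnerProductSpace ℝ H]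

omit [Fintype ι] in
lemma quad_diff (E : Finset ι) (p : ℝ) (c : ι → H) (F : ι → Bool) {k l : ι}
    (hk : k ∈ E) (hl : l ∈ E) :
    ‖cs E p c F‖ ^ 2 - ‖cs E p c (swp k l F)‖ ^ 2 =
      2 * (xi F k - xi F l) * ⟪cs E p c F, c k - c l⟫_ℝ
        - (xi F k - xi F l) ^ 2 * ‖c k - c l‖ ^ 2 := by
  rw [cs_swp E p c F hk hl, norm_sub_sq_real, inner_smul_right, norm_smul, mul_pow,
    Real.norm_eq_abs, sq_abs]
  ring

lemma norm_sub_sq_le (u v : H) : ‖u - v‖ ^ 2 ≤ 2 * ‖u‖ ^ 2 + 2 * ‖v‖ ^ 2 := by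
  have h1 := norm_sub_le u v
  have h2 : ‖u - v‖ ^ 2 ≤ (‖u‖ + ‖v‖) ^ 2 := by
    apply pow_le_pow_left₀ (norm_nonneg _) h1
  nlinarith [sq_nonneg (‖u‖ - ‖v‖)]

omit [Fintype ι] [DecidableEq ι] in
lemma hsq_le (F : ι → Bool) (k l : ι) : (xi F k - xi F l) ^ 2 ≤ 1 := by
  rcases xi_cases F k with h | h <;> rcases xi_cases F l with h' | h' <;> rw [h, h'] <;> norm_num

omit [Fintype ι] [DecidableEq ι] in
lemma hfour (F : ι → Bool) (k l : ι) : ((xi F k - xi F l) ^ 2) ^ 2 = (xi F k - xi F l) ^ 2 := by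
  rcases xi_cases F k with h | h <;> rcases xi_cases F l with h' | h' <;> rw [h, h'] <;> norm_num

omit [Fintype ι] in
/-- `∑_{k,l} (Q - Q^{kl}) = 4 d Q - R` on the support -/
lemma SliceW.sum_diff (h : SliceW E a w) (c : ι → H) {F : ι → Bool} (hF : w F ≠ 0) :
    ∑ k ∈ E, ∑ l ∈ E, (‖cs E (pr E a) c F‖ ^ 2 - ‖cs E (pr E a) c (swp k l F)‖ ^ 2) =
      4 * (E.card : ℝ) * ‖cs E (pr E a) c F‖ ^ 2
        - ∑ k ∈ E, ∑ l ∈ E, (xi F k - xi F l) ^ 2 * ‖c k - c l‖ ^ 2 := by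
  have h1 : ∑ k ∈ E, ∑ l ∈ E, 2 * (xi F k - xi F l) * ⟪cs E (pr E a) c F, c k - c l⟫_ℝ =
      4 * (E.card : ℝ) * ‖cs E (pr E a) c F‖ ^ 2 := by
    have h2 : ∑ k ∈ E, ∑ l ∈ E, 2 * (xi F k - xi F l) * ⟪cs E (pr E a) c F, c k - c l⟫_ℝ =
        2 * ⟪cs E (pr E a) c F, ∑ k ∈ E, ∑ l ∈ E, (xi F k - xi F l) • (c k - c l)⟫_ℝ := by
      rw [inner_sum, Finset.mul_sum]
      apply Finset.sum_congr rfl; intro k _
      rw [inner_sum, Finset.mul_sum]
      apply Finset.sum_congr rfl; intro l _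
      rw [inner_smul_right]; ring
    rw [h2, h.sum_sub_cs c hF, inner_smul_right, real_inner_self_eq_norm_sq]
    ring
  rw [← h1, ← Finset.sum_sub_distrib]
  apply Finset.sum_congr rfl; intro k hk
  rw [← Finset.sum_sub_distrib]
  apply Finset.sum_congr rfl; intro l hl
  exact quad_diff E _ c F hk hl

omit [Fintype ι] in
lemma R_le (c : ι → H) (F : ι → Bool) :
    ∑ k ∈ E, ∑ l ∈ E, (xi F k - xi F l) ^ 2 * ‖c k - c l‖ ^ 2 ≤
    ∑ k ∈ E, ∑ l ∈ E, (xi F k - xi F l) ^ 2 * (2 * ‖c k‖ ^ 2 + 2 * ‖c l‖ ^ 2) := by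
  apply Finset.sum_le_sum; intro k _
  apply Finset.sum_le_sum; intro l _
  exact mul_le_mul_of_nonneg_left (norm_sub_sq_le _ _) (sq_nonneg _)

/-- first moment of the quadratic form -/
lemma SliceW.quad_mean (h : SliceW E a w) (c : ι → H) (ω : ι → ℝ)
    (hpq : 0 ≤ pr E a * (1 - pr E a)) (hc : ∀ k ∈ E, ‖c k‖ ^ 2 ≤ ω k / 8) :
    16 * Ex w (fun F => ‖cs E (pr E a) c F‖ ^ 2) ≤
      4 * (pr E a * (1 - pr E a)) * (∑ k ∈ E, ω k) * ∑ F, w F := by
  rcases Finset.eq_empty_or_nonempty E with h0 | ⟨k0, hk0⟩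
  · subst h0
    simp [cs, Ex]
  have hd := card_pos' hk0
  set d : ℝ := (E.card : ℝ) with hdd
  set Q : (ι → Bool) → ℝ := fun F => ‖cs E (pr E a) c F‖ ^ 2 with hQ
  have e1 : Ex w (fun F => ∑ k ∈ E, ∑ l ∈ E, (Q F - Q (swp k l F))) = 0 := by
    rw [Ex_sum]
    apply Finset.sum_eq_zero; intro k hk
    rw [Ex_sum]
    apply Finset.sum_eq_zero; intro l hl
    rw [Ex_sub]
    have := h.sum_swp hk hl Q
    unfold Ex
    rw [this]; ring
  rw [h.Ex_congr (fun F hF => h.sum_diff c hF), Ex_sub, Ex_mul] at e1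
  have e2 : Ex w (fun F => ∑ k ∈ E, ∑ l ∈ E, (xi F k - xi F l) ^ 2 * ‖c k - c l‖ ^ 2) ≤
      4 * d * (pr E a * (1 - pr E a)) * (∑ k ∈ E, 2 * ‖c k‖ ^ 2) * ∑ F, w F := by
    rw [← h.Ex_pair (fun k => 2 * ‖c k‖ ^ 2)]
    exact h.Ex_le (fun F _ => R_le c F)
  have e3 : ∑ k ∈ E, 2 * ‖c k‖ ^ 2 ≤ (∑ k ∈ E, ω k) / 4 := by
    rw [Finset.sum_div]
    apply Finset.sum_le_sum; intro k hk
    have := hc k hk
    linarith
  have hM := h.mass_nonneg
  have e4 : 4 * d * (pr E a * (1 - pr E a)) * (∑ k ∈ E, 2 * ‖c k‖ ^ 2) * ∑ F, w F ≤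
      4 * d * (pr E a * (1 - pr E a)) * ((∑ k ∈ E, ω k) / 4) * ∑ F, w F := by
    apply mul_le_mul_of_nonneg_right _ hM
    apply mul_le_mul_of_nonneg_left e3
    positivity
  have e5 : 4 * d * Ex w Q ≤
      4 * d * ((pr E a * (1 - pr E a)) * ((∑ k ∈ E, ω k) / 4) * ∑ F, w F) := by
    nlinarith
  have e6 := le_of_mul_le_mul_left e5 (by positivity)
  have : Ex w Q = Ex w (fun F => ‖cs E (pr E a) c F‖ ^ 2) := rfl
  linarith

/-- summed squared differences of the quadratic form, pointwise -/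
lemma sq_diff_le (c : ι → H) (hB : ∀ α : H, ∑ k ∈ E, ⟪α, c k⟫_ℝ ^ 2 ≤ 4 * ‖α‖ ^ 2)
    (p : ℝ) (F : ι → Bool) :
    ∑ k ∈ E, ∑ l ∈ E, (‖cs E p c F‖ ^ 2 - ‖cs E p c (swp k l F)‖ ^ 2) ^ 2 ≤
      128 * (E.card : ℝ) * ‖cs E p c F‖ ^ 2 +
      ∑ k ∈ E, ∑ l ∈ E, (xi F k - xi F l) ^ 2 * (16 * ‖c k‖ ^ 4 + 16 * ‖c l‖ ^ 4) := by
  set S := cs E p c F with hS
  have h1 : ∀ k ∈ E, ∀ l ∈ E, (‖S‖ ^ 2 - ‖cs E p c (swp k l F)‖ ^ 2) ^ 2 ≤
      (16 * ⟪S, c k⟫_ℝ ^ 2 + 16 * ⟪S, c l⟫_ℝ ^ 2) +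
      (xi F k - xi F l) ^ 2 * (16 * ‖c k‖ ^ 4 + 16 * ‖c l‖ ^ 4) := by
    intro k hk l hl
    rw [hS, quad_diff E p c F hk hl, ← hS]
    set h := xi F k - xi F l with hh
    have hh1 : h ^ 2 ≤ 1 := hsq_le F k l
    have hh0 : 0 ≤ h ^ 2 := sq_nonneg _
    have hh4 : (h ^ 2) ^ 2 = h ^ 2 := hfour F k l
    rw [inner_sub_right]
    set u := ⟪S, c k⟫_ℝ with hu
    set v := ⟪S, c l⟫_ℝ with hv
    set m := ‖c k - c l‖ ^ 2 with hm
    have hm0 : 0 ≤ m := by positivity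
    have hm1 : m ≤ 2 * ‖c k‖ ^ 2 + 2 * ‖c l‖ ^ 2 := norm_sub_sq_le _ _
    have e1 : (2 * h * (u - v) - h ^ 2 * m) ^ 2 ≤ 8 * h ^ 2 * (u - v) ^ 2 + 2 * h ^ 2 * m ^ 2 := by
      have : 2 * ((2 * h * (u - v)) ^ 2 + (h ^ 2 * m) ^ 2) - (2 * h * (u - v) - h ^ 2 * m) ^ 2 =
        (2 * h * (u - v) + h ^ 2 * m) ^ 2 := by ring
      have h2 : (h ^ 2 * m) ^ 2 = h ^ 2 * m ^ 2 := by rw [mul_pow, hh4]
      nlinarith [sq_nonneg (2 * h * (u - v) + h ^ 2 * m)]
    have e2 : 8 * h ^ 2 * (u - v) ^ 2 ≤ 16 * u ^ 2 + 16 * v ^ 2 := by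
      have : (u - v) ^ 2 ≤ 2 * u ^ 2 + 2 * v ^ 2 := by nlinarith [sq_nonneg (u + v)]
      have h3 : h ^ 2 * (u - v) ^ 2 ≤ 1 * (u - v) ^ 2 :=
        mul_le_mul_of_nonneg_right hh1 (sq_nonneg _)
      linarith
    have e3 : m ^ 2 ≤ 8 * ‖c k‖ ^ 4 + 8 * ‖c l‖ ^ 4 := by
      have : m ^ 2 ≤ (2 * ‖c k‖ ^ 2 + 2 * ‖c l‖ ^ 2) ^ 2 := pow_le_pow_left₀ hm0 hm1 2
      nlinarith [sq_nonneg (‖c k‖ ^ 2 - ‖c l‖ ^ 2)]
    have e4 : h ^ 2 * m ^ 2 ≤ h ^ 2 * (8 * ‖c k‖ ^ 4 + 8 * ‖c l‖ ^ 4) :=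
      mul_le_mul_of_nonneg_left e3 hh0
    nlinarith
  have h2 : ∑ k ∈ E, ∑ l ∈ E, (16 * ⟪S, c k⟫_ℝ ^ 2 + 16 * ⟪S, c l⟫_ℝ ^ 2) ≤
      128 * (E.card : ℝ) * ‖S‖ ^ 2 := by
    have h3 : ∑ k ∈ E, ∑ l ∈ E, (16 * ⟪S, c k⟫_ℝ ^ 2 + 16 * ⟪S, c l⟫_ℝ ^ 2) =
        32 * (E.card : ℝ) * ∑ k ∈ E, ⟪S, c k⟫_ℝ ^ 2 := by
      have e1 : ∀ k ∈ E, ∑ l ∈ E, (16 * ⟪S, c k⟫_ℝ ^ 2 + 16 * ⟪S, c l⟫_ℝ ^ 2) =
          16 * (E.card : ℝ) * ⟪S, c k⟫_ℝ ^ 2 + 16 * ∑ l ∈ E, ⟪S, c l⟫_ℝ ^ 2 := by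
        intro k _
        rw [Finset.sum_add_distrib, Finset.sum_const, nsmul_eq_mul, ← Finset.mul_sum]
        ring
      rw [Finset.sum_congr rfl e1, Finset.sum_add_distrib, Finset.sum_const, nsmul_eq_mul,
        ← Finset.mul_sum]
      ring
    rw [h3]
    have h4 := hB S
    have h5 : (0 : ℝ) ≤ E.card := by positivity
    nlinarith
  calc ∑ k ∈ E, ∑ l ∈ E, (‖S‖ ^ 2 - ‖cs E p c (swp k l F)‖ ^ 2) ^ 2
      ≤ ∑ k ∈ E, ∑ l ∈ E, ((16 * ⟪S, c k⟫_ℝ ^ 2 + 16 * ⟪S, c l⟫_ℝ ^ 2) +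
      (xi F k - xi F l) ^ 2 * (16 * ‖c k‖ ^ 4 + 16 * ‖c l‖ ^ 4)) :=
        Finset.sum_le_sum fun k hk => Finset.sum_le_sum fun l hl => h1 k hk l hl
    _ = ∑ k ∈ E, ∑ l ∈ E, (16 * ⟪S, c k⟫_ℝ ^ 2 + 16 * ⟪S, c l⟫_ℝ ^ 2) +
      ∑ k ∈ E, ∑ l ∈ E, (xi F k - xi F l) ^ 2 * (16 * ‖c k‖ ^ 4 + 16 * ‖c l‖ ^ 4) := by
        rw [← Finset.sum_add_distrib]
        apply Finset.sum_congr rfl; intro k _
        rw [← Finset.sum_add_distrib]
    _ ≤ _ := by linarith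

lemma four_le {x o : ℝ} (h1 : x ^ 2 ≤ o / 8) (ho1 : o ≤ 1) (_ho0 : 0 ≤ o) :
    x ^ 4 ≤ o / 64 := by
  have : x ^ 4 = (x ^ 2) ^ 2 := by ring
  rw [this]
  have h2 : (x ^ 2) ^ 2 ≤ (o / 8) ^ 2 := pow_le_pow_left₀ (sq_nonneg _) h1 2
  nlinarith

/-- truncated second moment of the quadratic form -/
theorem SliceW.quad_second (h : SliceW E a w) (c : ι → H) (ω : ι → ℝ)
    (hpq : 0 ≤ pr E a * (1 - pr E a))
    (hω0 : ∀ k ∈ E, 0 ≤ ω k) (hω1 : ∀ k ∈ E, ω k ≤ 1)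
    (hc : ∀ k ∈ E, ‖c k‖ ^ 2 ≤ ω k / 8)
    (hB : ∀ α : H, ∑ k ∈ E, ⟪α, c k⟫_ℝ ^ 2 ≤ 4 * ‖α‖ ^ 2) (hne : E.Nonempty)
    (haE : (a : ℝ) ≤ E.card)
    (N : ℝ) (hN : N = 4 * (pr E a * (1 - pr E a)) * ∑ k ∈ E, ω k) :
    Ex w (fun F => (max (‖cs E (pr E a) c F‖ ^ 2 - N / 16) 0) ^ 2) ≤ 3 * (N * ∑ F, w F) := by
  obtain ⟨k0, hk0⟩ := hne
  have hd := card_pos' hk0
  have hM := h.mass_nonneg
  set M := ∑ F, w F with hMM
  set d : ℝ := (E.card : ℝ) with hdd
  set pq := pr E a * (1 - pr E a) with hpqd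
  set Q : (ι → Bool) → ℝ := fun F => ‖cs E (pr E a) c F‖ ^ 2 with hQ
  set f : (ι → Bool) → ℝ := fun F => max (Q F - N / 16) 0 with hf
  have hΩ0 : 0 ≤ ∑ k ∈ E, ω k := Finset.sum_nonneg hω0
  have hN0 : 0 ≤ N := by rw [hN]; positivity
  -- fourth powers
  have hc4 : ∑ k ∈ E, ‖c k‖ ^ 4 ≤ (∑ k ∈ E, ω k) / 64 := by
    rw [Finset.sum_div]
    apply Finset.sum_le_sum; intro k hk
    exact four_le (hc k hk) (hω1 k hk) (hω0 k hk)
  -- mean of Q
  have hmean : 16 * Ex w Q ≤ N * M := by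
    have := h.quad_mean c ω hpq hc
    rw [hN]
    exact this
  -- total squared difference
  have hT5 : Ex w (fun F => ∑ k ∈ E, ∑ l ∈ E, (Q F - Q (swp k l F)) ^ 2) ≤ 9 * d * (N * M) := by
    have e1 : Ex w (fun F => ∑ k ∈ E, ∑ l ∈ E, (Q F - Q (swp k l F)) ^ 2) ≤
        Ex w (fun F => 128 * d * Q F +
      ∑ k ∈ E, ∑ l ∈ E, (xi F k - xi F l) ^ 2 * (16 * ‖c k‖ ^ 4 + 16 * ‖c l‖ ^ 4)) :=
      h.Ex_le (fun F _ => sq_diff_le c hB _ F)
    rw [Ex_add, Ex_mul, h.Ex_pair (fun k => 16 * ‖c k‖ ^ 4), ← Finset.mul_sum] at e1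
    have e2 : 4 * d * pq * (16 * ∑ k ∈ E, ‖c k‖ ^ 4) * M ≤
        4 * d * pq * (16 * ((∑ k ∈ E, ω k) / 64)) * M := by
      apply mul_le_mul_of_nonneg_right _ hM
      apply mul_le_mul_of_nonneg_left _ (by positivity)
      linarith
    have e3 : 4 * d * pq * (16 * ((∑ k ∈ E, ω k) / 64)) * M = d * (N * M) / 4 := by
      rw [hN]; ring
    have e4 : 128 * d * Ex w Q ≤ 8 * d * (N * M) := by nlinarith
    have e5 : 0 ≤ d * (N * M) := by positivity
    linarith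
  -- linear remainder
  set L2 : (ι → Bool) → ℝ := fun F => cs E (pr E a) (fun k => ‖c k‖ ^ 2) F with hL2
  have hT6 : Ex w (fun F => (L2 F) ^ 2) ≤ N * M / 128 := by
    have e1 := h.linear (fun k => ‖c k‖ ^ 2)
    have e2 : ∑ k ∈ E, (‖c k‖ ^ 2) ^ 2 ≤ (∑ k ∈ E, ω k) / 64 := by
      refine le_trans (le_of_eq ?_) hc4
      apply Finset.sum_congr rfl; intro k _; ring
    have e3 : 2 * pq * (∑ k ∈ E, (‖c k‖ ^ 2) ^ 2) * M ≤ 2 * pq * ((∑ k ∈ E, ω k) / 64) * M := by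
      apply mul_le_mul_of_nonneg_right _ hM
      apply mul_le_mul_of_nonneg_left e2 (by positivity)
    have e4 : 2 * pq * ((∑ k ∈ E, ω k) / 64) * M = N * M / 128 := by rw [hN]; ring
    exact (e1.trans e3).trans e4.le
  -- the main identity
  have hA : Ex w (fun F => f F * ∑ k ∈ E, ∑ l ∈ E, (Q F - Q (swp k l F))) ≤
      (1 / 2) * Ex w (fun F => ∑ k ∈ E, ∑ l ∈ E, (Q F - Q (swp k l F)) ^ 2) := by
    have e1 : Ex w (fun F => f F * ∑ k ∈ E, ∑ l ∈ E, (Q F - Q (swp k l F))) =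
        ∑ k ∈ E, ∑ l ∈ E, Ex w (fun F => f F * (Q F - Q (swp k l F))) := by
      rw [← Finset.sum_congr rfl (fun k _ => Ex_sum E (fun l F => f F * (Q F - Q (swp k l F)))),
        ← Ex_sum]
      congr 1
      funext F
      rw [Finset.mul_sum]
      apply Finset.sum_congr rfl; intro k _
      rw [Finset.mul_sum]
    have e2 : Ex w (fun F => ∑ k ∈ E, ∑ l ∈ E, (Q F - Q (swp k l F)) ^ 2) =
        ∑ k ∈ E, ∑ l ∈ E, Ex w (fun F => (Q F - Q (swp k l F)) ^ 2) := by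
      rw [Ex_sum]
      apply Finset.sum_congr rfl; intro k _
      rw [Ex_sum]
    rw [e1, e2, Finset.mul_sum]
    apply Finset.sum_le_sum; intro k hk
    rw [Finset.mul_sum]
    apply Finset.sum_le_sum; intro l hl
    have e3 := h.exchange hk hl f Q
    have e4 : Ex w (fun F => f F * (Q F - Q (swp k l F))) =
        1 / 2 * Ex w (fun F => (f F - f (swp k l F)) * (Q F - Q (swp k l F))) := e3
    rw [e4]
    apply mul_le_mul_of_nonneg_left _ (by norm_num)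
    apply h.Ex_le
    intro F _
    simp only [hf]
    rcases le_total (Q F) (N / 16) with h1 | h1 <;>
    rcases le_total (Q (swp k l F)) (N / 16) with h2 | h2
    · rw [max_eq_right (by linarith), max_eq_right (by linarith)]
      nlinarith [sq_nonneg (Q F - Q (swp k l F))]
    · rw [max_eq_right (by linarith), max_eq_left (by linarith)]
      nlinarith [sq_nonneg (Q F - Q (swp k l F))]
    · rw [max_eq_left (by linarith), max_eq_right (by linarith)]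
      nlinarith [sq_nonneg (Q F - Q (swp k l F))]
    · rw [max_eq_left (by linarith), max_eq_left (by linarith)]
      nlinarith [sq_nonneg (Q F - Q (swp k l F))]
  -- lower bound for the left side
  have hBd : 2 * d * Ex w (fun F => (f F) ^ 2) - 2 * d * Ex w (fun F => (L2 F) ^ 2) ≤
      Ex w (fun F => f F * ∑ k ∈ E, ∑ l ∈ E, (Q F - Q (swp k l F))) := by
    rw [← Ex_mul, ← Ex_mul, ← Ex_sub]
    apply h.Ex_le
    intro F hF
    have hsd : ∑ k ∈ E, ∑ l ∈ E, (Q F - Q (swp k l F)) = 4 * d * Q F -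
        ∑ k ∈ E, ∑ l ∈ E, (xi F k - xi F l) ^ 2 * ‖c k - c l‖ ^ 2 := h.sum_diff c hF
    rw [hsd]
    have hR := R_le (E := E) c F
    -- evaluate the upper bound of R
    have hR2 : ∑ k ∈ E, ∑ l ∈ E, (xi F k - xi F l) ^ 2 * (2 * ‖c k‖ ^ 2 + 2 * ‖c l‖ ^ 2) =
        8 * d * pq * (∑ k ∈ E, ‖c k‖ ^ 2) + 4 * (d - 2 * a) * L2 F := by
      have e1 : ∑ k ∈ E, ∑ l ∈ E, (xi F k - xi F l) ^ 2 * (2 * ‖c k‖ ^ 2 + 2 * ‖c l‖ ^ 2) =
          ∑ k ∈ E, ∑ l ∈ E, (xi F k - xi F l) ^ 2 * (2 * ‖c k‖ ^ 2) +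
          ∑ k ∈ E, ∑ l ∈ E, (xi F k - xi F l) ^ 2 * (2 * ‖c l‖ ^ 2) := by
        rw [← Finset.sum_add_distrib]
        apply Finset.sum_congr rfl; intro k _
        rw [← Finset.sum_add_distrib]
        apply Finset.sum_congr rfl; intro l _
        ring
      have e2 : ∑ k ∈ E, ∑ l ∈ E, (xi F k - xi F l) ^ 2 * (2 * ‖c l‖ ^ 2) =
          ∑ k ∈ E, ∑ l ∈ E, (xi F k - xi F l) ^ 2 * (2 * ‖c k‖ ^ 2) := by
        rw [Finset.sum_comm]
        apply Finset.sum_congr rfl; intro k _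
        apply Finset.sum_congr rfl; intro l _
        ring
      have e3 : ∑ k ∈ E, ∑ l ∈ E, (xi F k - xi F l) ^ 2 * (2 * ‖c k‖ ^ 2) =
          ∑ k ∈ E, (2 * ‖c k‖ ^ 2) * (2 * d * pq + (d - 2 * a) * (xi F k - pr E a)) := by
        apply Finset.sum_congr rfl; intro k hk
        rw [← Finset.sum_mul, h.eta hF k]
        have e4 := card_mul_pr (a := a) hk
        rw [← e4, hpqd, hdd]
        ring
      have e5 : ∑ k ∈ E, (2 * ‖c k‖ ^ 2) * (2 * d * pq + (d - 2 * a) * (xi F k - pr E a)) =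
          4 * d * pq * (∑ k ∈ E, ‖c k‖ ^ 2) + 2 * (d - 2 * a) * L2 F := by
        simp only [hL2, cs]
        rw [Finset.mul_sum, Finset.mul_sum, ← Finset.sum_add_distrib]
        apply Finset.sum_congr rfl; intro k _
        rw [smul_eq_mul]
        ring
      rw [e1, e2, e3, e5]; ring
    have hc2 : ∑ k ∈ E, ‖c k‖ ^ 2 ≤ (∑ k ∈ E, ω k) / 8 := by
      rw [Finset.sum_div]
      exact Finset.sum_le_sum hc
    have hR3 : 8 * d * pq * (∑ k ∈ E, ‖c k‖ ^ 2) ≤ d * N / 4 := by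
      have : 8 * d * pq * (∑ k ∈ E, ‖c k‖ ^ 2) ≤ 8 * d * pq * ((∑ k ∈ E, ω k) / 8) := by
        apply mul_le_mul_of_nonneg_left hc2 (by positivity)
      refine this.trans (le_of_eq ?_)
      rw [hN]; ring
    have hf0 : 0 ≤ f F := le_max_right _ _
    have hfQ : f F * (Q F - N / 16) = (f F) ^ 2 := by
      simp only [hf]
      rcases le_total (Q F - N / 16) 0 with h1 | h1
      · rw [max_eq_right h1]; ring
      · rw [max_eq_left h1]; ring
    have hda : (d - 2 * a) ^ 2 ≤ d ^ 2 := by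
      have h1 : (0 : ℝ) ≤ a := by positivity
      nlinarith
    set X := L2 F with hX
    set g := f F with hg
    have key : 4 * (d - 2 * a) * (g * X) ≤ 2 * d * g ^ 2 + 2 * d * X ^ 2 := by
      have h1 : 0 ≤ (d * g - (d - 2 * a) * X) ^ 2 := sq_nonneg _
      have h2 : (d - 2 * a) ^ 2 * X ^ 2 ≤ d ^ 2 * X ^ 2 :=
        mul_le_mul_of_nonneg_right hda (sq_nonneg _)
      have h1' : (d * g - (d - 2 * a) * X) ^ 2 =
          d ^ 2 * g ^ 2 - 2 * (d * ((d - 2 * a) * (g * X))) + (d - 2 * a) ^ 2 * X ^ 2 := by ring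
      have h3 : d * (4 * (d - 2 * a) * (g * X)) ≤ d * (2 * d * g ^ 2 + 2 * d * X ^ 2) := by
        have e1 : d * (4 * (d - 2 * a) * (g * X)) = 4 * (d * ((d - 2 * a) * (g * X))) := by ring
        have e2 : d * (2 * d * g ^ 2 + 2 * d * X ^ 2) = 2 * (d ^ 2 * g ^ 2) + 2 * (d ^ 2 * X ^ 2) := by
          ring
        rw [e1, e2]
        linarith
      exact le_of_mul_le_mul_left h3 hd
    have h7 : g * (∑ k ∈ E, ∑ l ∈ E, (xi F k - xi F l) ^ 2 * ‖c k - c l‖ ^ 2) ≤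
        g * (d * N / 4 + 4 * (d - 2 * a) * X) := by
      apply mul_le_mul_of_nonneg_left _ hf0
      linarith
    have h8 : g * (4 * d * Q F - ∑ k ∈ E, ∑ l ∈ E, (xi F k - xi F l) ^ 2 * ‖c k - c l‖ ^ 2) =
        4 * d * (g * (Q F - N / 16)) + g * (d * N / 4) -
        g * (∑ k ∈ E, ∑ l ∈ E, (xi F k - xi F l) ^ 2 * ‖c k - c l‖ ^ 2) := by ring
    rw [h8, hfQ]
    have h9 : g * (d * N / 4 + 4 * (d - 2 * a) * X) =
        g * (d * N / 4) + 4 * (d - 2 * a) * (g * X) := by ring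
    linarith
  have hfin : 2 * d * Ex w (fun F => (f F) ^ 2) ≤ 2 * d * (3 * (N * M)) := by
    have e1 : 0 ≤ d * (N * M) := by positivity
    have e2 : 2 * d * Ex w (fun F => (L2 F) ^ 2) ≤ 2 * d * (N * M / 128) :=
      mul_le_mul_of_nonneg_left hT6 (by positivity)
    nlinarith
  exact le_of_mul_le_mul_left hfin (by positivity)

/-- tail of the quadratic form -/
theorem SliceW.quad_tail (h : SliceW E a w) (c : ι → H) (ω : ι → ℝ)
    (hω0 : ∀ k ∈ E, 0 ≤ ω k) (hω1 : ∀ k ∈ E, ω k ≤ 1)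
    (hc : ∀ k ∈ E, ‖c k‖ ^ 2 ≤ ω k / 8)
    (hB : ∀ α : H, ∑ k ∈ E, ⟪α, c k⟫_ℝ ^ 2 ≤ 4 * ‖α‖ ^ 2)
    (N : ℝ) (hN : N = 4 * (pr E a * (1 - pr E a)) * ∑ k ∈ E, ω k) :
    Ex w (fun F => max (2 * ‖cs E (pr E a) c F‖ ^ 2 - N / 4) 0) ≤ 24 * ∑ F, w F := by
  by_cases hw : ∀ F, w F = 0
  · simp [Ex, hw]
  push Not at hw
  obtain ⟨F0, hF0⟩ := hw
  have hpq := h.pq_nonneg hF0
  have hM := h.mass_nonneg
  have hΩ0 : 0 ≤ ∑ k ∈ E, ω k := Finset.sum_nonneg hω0
  have hN0 : 0 ≤ N := by rw [hN]; positivity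
  rcases Finset.eq_empty_or_nonempty E with h0 | hne
  · subst h0
    have e1 : Ex w (fun F => max (2 * ‖cs (∅ : Finset ι) (pr (∅ : Finset ι) a) c F‖ ^ 2 - N / 4) 0) = 0 := by
      have : N = 0 := by rw [hN]; simp
      rw [this]
      simp [cs, Ex]
    rw [e1]; positivity
  have haE : (a : ℝ) ≤ E.card := by
    rw [← h.supp F0 hF0]
    calc ∑ k ∈ E, xi F0 k ≤ ∑ k ∈ E, (1 : ℝ) := by
          apply Finset.sum_le_sum; intro k _
          rcases xi_cases F0 k with h | h <;> rw [h] <;> norm_num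
      _ = E.card := by simp
  rcases hN0.lt_or_eq with hpos | hzero
  · have h2 := h.quad_second c ω hpq hω0 hω1 hc hB hne haE N hN
    have e1 : Ex w (fun F => max (2 * ‖cs E (pr E a) c F‖ ^ 2 - N / 4) 0) ≤
        Ex w (fun F => (8 / N) * (max (‖cs E (pr E a) c F‖ ^ 2 - N / 16) 0) ^ 2) := by
      apply h.Ex_le
      intro F _
      set q := ‖cs E (pr E a) c F‖ ^ 2 with hq
      apply max_le
      · rcases le_total (q - N / 16) 0 with h1 | h1
        · have : 2 * q - N / 4 ≤ 0 := by linarith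
          have h3 : 0 ≤ (8 / N) * (max (q - N / 16) 0) ^ 2 := by positivity
          linarith
        · rw [max_eq_left h1]
          -- (8/N) z^2 ≥ 2 (z - N/16) where z = q - N/16
          have h6 : 2 * q - N / 4 ≤ (8 / N) * (q - N / 16) ^ 2 := by
            have h7 : (8 / N) * (q - N / 16) ^ 2 - (2 * q - N / 4) =
                (8 / N) * ((q - N / 16) - N / 8) ^ 2 := by
              field_simp
              ring
            have h8 : 0 ≤ (8 / N) * ((q - N / 16) - N / 8) ^ 2 := by positivity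
            linarith
          exact h6
      · positivity
    rw [Ex_mul] at e1
    have e2 : 8 / N * Ex w (fun F => (max (‖cs E (pr E a) c F‖ ^ 2 - N / 16) 0) ^ 2) ≤
        8 / N * (3 * (N * ∑ F, w F)) := mul_le_mul_of_nonneg_left h2 (by positivity)
    have e3 : 8 / N * (3 * (N * ∑ F, w F)) = 24 * ∑ F, w F := by
      field_simp; ring
    linarith
  · have h1 := h.quad_mean c ω hpq hc
    rw [← hN, ← hzero, zero_mul] at h1
    have e1 : Ex w (fun F => max (2 * ‖cs E (pr E a) c F‖ ^ 2 - N / 4) 0) =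
        2 * Ex w (fun F => ‖cs E (pr E a) c F‖ ^ 2) := by
      rw [← Ex_mul, ← hzero]
      congr 1; funext F
      have h0 : 0 ≤ 2 * ‖cs E (pr E a) c F‖ ^ 2 - 0 / 4 := by
        have := sq_nonneg ‖cs E (pr E a) c F‖
        linarith
      rw [max_eq_left h0]
      ring
    rw [e1]
    have : (0 : ℝ) ≤ 24 * ∑ F, w F := by positivity
    linarith

/-- lower deviation of the weighted square norm -/
theorem SliceW.norm_tail (h : SliceW E a w) (ω : ι → ℝ)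
    (hω0 : ∀ k ∈ E, 0 ≤ ω k) (hω1 : ∀ k ∈ E, ω k ≤ 1)
    (N : ℝ) (hN : N = 4 * (pr E a * (1 - pr E a)) * ∑ k ∈ E, ω k) :
    Ex w (fun F => max (3 * N / 4 - 4 * ∑ k ∈ E, ω k * (xi F k - pr E a) ^ 2) 0) ≤
      8 * ∑ F, w F := by
  by_cases hw : ∀ F, w F = 0
  · simp [Ex, hw]
  push Not at hw
  obtain ⟨F0, hF0⟩ := hw
  have hpq := h.pq_nonneg hF0
  have hM := h.mass_nonneg
  have hΩ0 : 0 ≤ ∑ k ∈ E, ω k := Finset.sum_nonneg hω0
  have hN0 : 0 ≤ N := by rw [hN]; positivity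
  set p := pr E a with hp
  have hW0 : ∀ F : ι → Bool, 0 ≤ 4 * ∑ k ∈ E, ω k * (xi F k - p) ^ 2 := by
    intro F
    have : 0 ≤ ∑ k ∈ E, ω k * (xi F k - p) ^ 2 :=
      Finset.sum_nonneg fun k hk => mul_nonneg (hω0 k hk) (sq_nonneg _)
    positivity
  rcases hN0.lt_or_eq with hpos | hzero
  · have h1 := h.linear ω
    have e0 : ∀ F : ι → Bool, 4 * ∑ k ∈ E, ω k * (xi F k - p) ^ 2 =
        N + 4 * (1 - 2 * p) * cs E p ω F := by
      intro F
      have : ∀ k ∈ E, ω k * (xi F k - p) ^ 2 = (p * (1 - p)) * ω k +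
          (1 - 2 * p) * ((xi F k - p) • ω k) := by
        intro k _
        have h2 := xi_sq F k
        rw [smul_eq_mul]
        ring_nf
        rw [h2]; ring
      rw [Finset.sum_congr rfl this, Finset.sum_add_distrib, ← Finset.mul_sum, ← Finset.mul_sum,
        hN]
      unfold cs
      ring
    have e1 : Ex w (fun F => max (3 * N / 4 - 4 * ∑ k ∈ E, ω k * (xi F k - p) ^ 2) 0) ≤
        Ex w (fun F => (16 / N) * (cs E p ω F) ^ 2) := by
      apply h.Ex_le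
      intro F _
      rw [e0 F]
      set L := cs E p ω F with hL
      have hp2 : (1 - 2 * p) ^ 2 ≤ 1 := by nlinarith
      apply max_le
      · have h3 : 0 ≤ (16 / N) * (L * (1 - 2 * p) + N / 8) ^ 2 := by positivity
        have h4 : (16 / N) * (L * (1 - 2 * p) + N / 8) ^ 2 =
            (16 / N) * (L ^ 2 * (1 - 2 * p) ^ 2) + 4 * (1 - 2 * p) * L + N / 4 := by
          field_simp
          ring
        have h5 : (16 / N) * (L ^ 2 * (1 - 2 * p) ^ 2) ≤ (16 / N) * (L ^ 2 * 1) := by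
          apply mul_le_mul_of_nonneg_left _ (by positivity)
          apply mul_le_mul_of_nonneg_left hp2 (by positivity)
        have h6 : (16 / N) * (L ^ 2 * 1) = (16 / N) * L ^ 2 := by ring
        linarith
      · positivity
    rw [Ex_mul] at e1
    have e2 : ∑ k ∈ E, ω k ^ 2 ≤ ∑ k ∈ E, ω k := by
      apply Finset.sum_le_sum; intro k hk
      nlinarith [hω0 k hk, hω1 k hk]
    have e3 : 2 * (p * (1 - p)) * (∑ k ∈ E, ω k ^ 2) * ∑ F, w F ≤
        2 * (p * (1 - p)) * (∑ k ∈ E, ω k) * ∑ F, w F := by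
      apply mul_le_mul_of_nonneg_right _ hM
      apply mul_le_mul_of_nonneg_left e2 (by positivity)
    have e4 : 2 * (p * (1 - p)) * (∑ k ∈ E, ω k) * ∑ F, w F = N / 2 * ∑ F, w F := by
      rw [hN]; ring
    have e5 : 16 / N * Ex w (fun F => (cs E p ω F) ^ 2) ≤ 16 / N * (N / 2 * ∑ F, w F) :=
      mul_le_mul_of_nonneg_left (by linarith) (by positivity)
    have e6 : 16 / N * (N / 2 * ∑ F, w F) = 8 * ∑ F, w F := by
      field_simp; ring
    linarith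
  · have e1 : Ex w (fun F => max (3 * N / 4 - 4 * ∑ k ∈ E, ω k * (xi F k - p) ^ 2) 0) = 0 := by
      rw [← hzero]
      unfold Ex
      apply Finset.sum_eq_zero; intro F _
      have h0 : 3 * 0 / 4 - 4 * ∑ k ∈ E, ω k * (xi F k - p) ^ 2 ≤ 0 := by
        have := hW0 F
        linarith
      show w F * max (3 * 0 / 4 - 4 * ∑ k ∈ E, ω k * (xi F k - p) ^ 2) 0 = 0
      rw [max_eq_right h0]
      ring
    rw [e1]; positivity

/-- second moment of the linear functional, normalised -/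
theorem SliceW.lin_tail (h : SliceW E a w) (ω γ : ι → ℝ)
    (hω0 : ∀ k ∈ E, 0 ≤ ω k) (hω1 : ∀ k ∈ E, ω k ≤ 1)
    (hγ : ∀ k ∈ E, |γ k| ≤ 4 * ω k)
    (N : ℝ) (hN : N = 4 * (pr E a * (1 - pr E a)) * ∑ k ∈ E, ω k) :
    Ex w (fun F => 2 * (cs E (pr E a) γ F) ^ 2 / N) ≤ 16 * ∑ F, w F := by
  by_cases hw : ∀ F, w F = 0
  · simp [Ex, hw]
  push Not at hw
  obtain ⟨F0, hF0⟩ := hw
  have hpq := h.pq_nonneg hF0
  have hM := h.mass_nonneg
  have hΩ0 : 0 ≤ ∑ k ∈ E, ω k := Finset.sum_nonneg hω0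
  have hN0 : 0 ≤ N := by rw [hN]; positivity
  rcases hN0.lt_or_eq with hpos | hzero
  · have h1 := h.linear γ
    have e1 : Ex w (fun F => 2 * (cs E (pr E a) γ F) ^ 2 / N) =
        (2 / N) * Ex w (fun F => (cs E (pr E a) γ F) ^ 2) := by
      rw [← Ex_mul]
      congr 1; funext F; ring
    have e2 : ∑ k ∈ E, γ k ^ 2 ≤ 16 * ∑ k ∈ E, ω k := by
      rw [Finset.mul_sum]
      apply Finset.sum_le_sum; intro k hk
      have h3 := hγ k hk
      have h4 : γ k ^ 2 ≤ (4 * ω k) ^ 2 := by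
        rw [← sq_abs]
        exact pow_le_pow_left₀ (abs_nonneg _) h3 2
      nlinarith [hω0 k hk, hω1 k hk]
    have e3 : 2 * (pr E a * (1 - pr E a)) * (∑ k ∈ E, γ k ^ 2) * ∑ F, w F ≤
        2 * (pr E a * (1 - pr E a)) * (16 * ∑ k ∈ E, ω k) * ∑ F, w F := by
      apply mul_le_mul_of_nonneg_right _ hM
      apply mul_le_mul_of_nonneg_left e2 (by positivity)
    have e4 : 2 * (pr E a * (1 - pr E a)) * (16 * ∑ k ∈ E, ω k) * ∑ F, w F =
        8 * N * ∑ F, w F := by rw [hN]; ring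
    have e5 : 2 / N * Ex w (fun F => (cs E (pr E a) γ F) ^ 2) ≤ 2 / N * (8 * N * ∑ F, w F) :=
      mul_le_mul_of_nonneg_left (by linarith) (by positivity)
    have e6 : 2 / N * (8 * N * ∑ F, w F) = 16 * ∑ F, w F := by
      field_simp; ring
    rw [e1]; linarith
  · rw [← hzero]
    simp only [div_zero]
    rw [Ex_const, zero_mul]
    positivity

/-- number of flipped coordinates inside `E` -/
def cnt (E : Finset ι) (F : ι → Bool) : ℕ := (E.filter (fun k => F k = true)).card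

lemma cnt_cast (E : Finset ι) (F : ι → Bool) : (cnt E F : ℝ) = ∑ k ∈ E, xi F k := by
  unfold cnt xi
  rw [Finset.card_filter]
  push_cast
  rfl

lemma cnt_le (E : Finset ι) (F : ι → Bool) : cnt E F ≤ E.card := Finset.card_filter_le _ _

lemma cnt_swp (E : Finset ι) (F : ι → Bool) {k l : ι} (hk : k ∈ E) (hl : l ∈ E) :
    cnt E (swp k l F) = cnt E F := by
  have h1 := cs_swp E 0 (fun _ => (1 : ℝ)) F hk hl
  have h2 : (cnt E (swp k l F) : ℝ) = cnt E F := by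
    rw [cnt_cast, cnt_cast]
    simpa [cs] using h1
  exact_mod_cast h2

/-- the bound on the one-step gain contributed by `E` -/
noncomputable def gE (E : Finset ι) (ω γ : ι → ℝ) (c : ι → H) (F : ι → Bool) : ℝ :=
  2 * (cs E (pr E (cnt E F)) γ F) ^ 2 /
      (4 * (pr E (cnt E F) * (1 - pr E (cnt E F))) * ∑ k ∈ E, ω k)
    + max (2 * ‖cs E (pr E (cnt E F)) c F‖ ^ 2 -
      (4 * (pr E (cnt E F) * (1 - pr E (cnt E F))) * ∑ k ∈ E, ω k) / 4) 0
    + max (3 * (4 * (pr E (cnt E F) * (1 - pr E (cnt E F))) * ∑ k ∈ E, ω k) / 4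
      - 4 * ∑ k ∈ E, ω k * (xi F k - pr E (cnt E F)) ^ 2) 0

theorem slice_total (E : Finset ι) (μ : (ι → Bool) → ℝ) (hμ0 : ∀ F, 0 ≤ μ F)
    (hμinv : ∀ k ∈ E, ∀ l ∈ E, ∀ F, μ (swp k l F) = μ F)
    (ω γ : ι → ℝ) (c : ι → H)
    (hω0 : ∀ k ∈ E, 0 ≤ ω k) (hω1 : ∀ k ∈ E, ω k ≤ 1)
    (hγ : ∀ k ∈ E, |γ k| ≤ 4 * ω k)
    (hc : ∀ k ∈ E, ‖c k‖ ^ 2 ≤ ω k / 8)
    (hB : ∀ α : H, ∑ k ∈ E, ⟪α, c k⟫_ℝ ^ 2 ≤ 4 * ‖α‖ ^ 2) :
    ∑ F, μ F * gE E ω γ c F ≤ 48 * ∑ F, μ F := by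
  have hdec : ∀ g : (ι → Bool) → ℝ, ∑ F, μ F * g F =
      ∑ a ∈ Finset.range (E.card + 1), ∑ F, (if cnt E F = a then μ F else 0) * g F := by
    intro g
    rw [Finset.sum_comm]
    apply Finset.sum_congr rfl; intro F _
    rw [← Finset.sum_mul]
    congr 1
    rw [Finset.sum_ite_eq]
    rw [if_pos]
    rw [Finset.mem_range]
    exact Nat.lt_succ_of_le (cnt_le E F)
  have hdec1 : ∑ F, μ F =
      ∑ a ∈ Finset.range (E.card + 1), ∑ F, (if cnt E F = a then μ F else 0) := by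
    have := hdec (fun _ => 1)
    simpa using this
  rw [hdec, hdec1, Finset.mul_sum]
  apply Finset.sum_le_sum; intro a _
  set w : (ι → Bool) → ℝ := fun F => if cnt E F = a then μ F else 0 with hw
  have hS : SliceW E a w := by
    refine ⟨?_, ?_, ?_⟩
    · intro F; simp only [hw]; split_ifs
      · exact hμ0 F
      · exact le_refl _
    · intro F hF
      simp only [hw] at hF
      by_cases h1 : cnt E F = a
      · rw [← cnt_cast, h1]
      · rw [if_neg h1] at hF; exact absurd rfl hF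
    · intro k hk l hl F
      simp only [hw]
      rw [cnt_swp E F hk hl, hμinv k hk l hl F]
  have h1 := hS.lin_tail ω γ hω0 hω1 hγ _ rfl
  have h2 := hS.quad_tail c ω hω0 hω1 hc hB _ rfl
  have h3 := hS.norm_tail ω hω0 hω1 _ rfl
  have h4 : Ex w (gE E ω γ c) =
      Ex w (fun F => 2 * (cs E (pr E a) γ F) ^ 2 /
        (4 * (pr E a * (1 - pr E a)) * ∑ k ∈ E, ω k)) +
      Ex w (fun F => max (2 * ‖cs E (pr E a) c F‖ ^ 2 -
        (4 * (pr E a * (1 - pr E a)) * ∑ k ∈ E, ω k) / 4) 0) +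
      Ex w (fun F => max (3 * (4 * (pr E a * (1 - pr E a)) * ∑ k ∈ E, ω k) / 4 -
        4 * ∑ k ∈ E, ω k * (xi F k - pr E a) ^ 2) 0) := by
    rw [← Ex_add, ← Ex_add]
    apply hS.Ex_congr
    intro F hF
    have : cnt E F = a := by
      by_contra hne
      apply hF
      simp only [hw]
      rw [if_neg hne]
    unfold gE
    rw [this]
  have h5 : Ex w (gE E ω γ c) ≤ 48 * ∑ F, w F := by
    rw [h4]; linarith
  exact h5

end BU860
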