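import Mathlib

/-! Leverage-balancing weights. -/

set_option linter.unusedSectionVars false

namespace BU860

open Finset
open scoped InnerProductSpace

variable {ι : Type*} [Fintype ι] [DecidableEq ι]

/-- weights from exponents -/
noncomputable def wt (j : ι → ℕ) (k : ι) : ℝ := (1 / 2 : ℝ) ^ (j k)

lemma wt_pos (j : ι → ℕ) (k : ι) : 0 < wt j k := by unfold wt; positivity

lemma wt_le_one (j : ι → ℕ) (k : ι) : wt j k ≤ 1 := by
  unfold wt; exact pow_le_one₀ (by norm_num) (by norm_num)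

lemma wt_anti {j j' : ι → ℕ} {k : ι} (h : j k ≤ j' k) : wt j' k ≤ wt j k := by
  unfold wt
  exact pow_le_pow_of_le_one (by norm_num) (by norm_num) h

/-- feasible exponent vectors -/
def feas (ε τ : ℝ) (V : Submodule ℝ (ι → ℝ)) (j : ι → ℕ) : Prop :=
  ∀ u ∈ V, ∀ k, wt j k * u k ^ 2 ≤ τ * ∑ l, (wt j l + ε) * u l ^ 2

variable {ε τ : ℝ} {V V' : Submodule ℝ (ι → ℝ)}

lemma exists_feas (hε : 0 < ε) (hτ : 0 < τ) (V : Submodule ℝ (ι → ℝ)) :
    ∃ j, feas ε τ V j := by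
  obtain ⟨m, hm⟩ := exists_pow_lt_of_lt_one (mul_pos hτ hε) (by norm_num : (1 / 2 : ℝ) < 1)
  refine ⟨fun _ => m, ?_⟩
  intro u _ k
  have h1 : (wt (fun _ : ι => m) k + ε) * u k ^ 2 ≤
      ∑ l, (wt (fun _ : ι => m) l + ε) * u l ^ 2 := by
    apply Finset.single_le_sum (f := fun l => (wt (fun _ : ι => m) l + ε) * u l ^ 2)
    · intro l _
      have := wt_pos (fun _ : ι => m) l
      positivity
    · exact Finset.mem_univ k
  have h2 : wt (fun _ : ι => m) k * u k ^ 2 ≤ τ * ((wt (fun _ : ι => m) k + ε) * u k ^ 2) := by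
    have h3 : wt (fun _ : ι => m) k ≤ τ * ε := by
      show (1 / 2 : ℝ) ^ m ≤ τ * ε
      exact hm.le
    have h4 := wt_pos (fun _ : ι => m) k
    have h5 : 0 ≤ u k ^ 2 := sq_nonneg _
    have h6 : wt (fun _ : ι => m) k ≤ τ * (wt (fun _ : ι => m) k + ε) := by
      nlinarith
    calc wt (fun _ : ι => m) k * u k ^ 2 ≤ (τ * (wt (fun _ : ι => m) k + ε)) * u k ^ 2 :=
          mul_le_mul_of_nonneg_right h6 h5
      _ = _ := by ring
  exact h2.trans (mul_le_mul_of_nonneg_left h1 hτ.le)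

/-- the least feasible exponent vector -/
noncomputable def expo (ε τ : ℝ) (V : Submodule ℝ (ι → ℝ)) (k : ι) : ℕ :=
  sInf {m | ∃ j, feas ε τ V j ∧ j k = m}

lemma expo_le {j : ι → ℕ} (hj : feas ε τ V j) (k : ι) : expo ε τ V k ≤ j k :=
  Nat.sInf_le ⟨j, hj, rfl⟩

lemma expo_mem (hε : 0 < ε) (hτ : 0 < τ) (V : Submodule ℝ (ι → ℝ)) (k : ι) :
    ∃ j, feas ε τ V j ∧ j k = expo ε τ V k := by
  obtain ⟨j, hj⟩ := exists_feas hε hτ V
  exact Nat.sInf_mem (s := {m | ∃ j, feas ε τ V j ∧ j k = m}) ⟨j k, j, hj, rfl⟩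

lemma feas_expo (hε : 0 < ε) (hτ : 0 < τ) (V : Submodule ℝ (ι → ℝ)) :
    feas ε τ V (expo ε τ V) := by
  intro u hu k
  obtain ⟨j, hj, hjk⟩ := expo_mem hε hτ V k
  have h1 : wt (expo ε τ V) k = wt j k := by unfold wt; rw [hjk]
  rw [h1]
  refine (hj u hu k).trans ?_
  apply mul_le_mul_of_nonneg_left _ hτ.le
  apply Finset.sum_le_sum
  intro l _
  apply mul_le_mul_of_nonneg_right _ (sq_nonneg _)
  have := wt_anti (j := expo ε τ V) (j' := j) (k := l) (expo_le hj l)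
  linarith

lemma expo_mono (hε : 0 < ε) (hτ : 0 < τ) (hV : V ≤ V') (k : ι) :
    expo ε τ V k ≤ expo ε τ V' k := by
  apply expo_le
  intro u hu k
  exact feas_expo hε hτ V' u (hV hu) k

lemma expo_witness (hε : 0 < ε) (hτ : 0 < τ) (V : Submodule ℝ (ι → ℝ)) (k : ι)
    (hk : 1 ≤ expo ε τ V k) :
    ∃ u ∈ V, τ / 2 * ∑ l, (wt (expo ε τ V) l + ε) * u l ^ 2 < wt (expo ε τ V) k * u k ^ 2 := by
  by_contra hcon
  push Not at hcon
  set j := expo ε τ V with hj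
  set j' : ι → ℕ := Function.update j k (j k - 1) with hj'
  have hle : ∀ l, j' l ≤ j l := by
    intro l
    by_cases h : l = k
    · subst h; rw [hj', Function.update_self]; omega
    · rw [hj', Function.update_of_ne h]
  have hfe : feas ε τ V j' := by
    intro u hu l
    have hsum : ∑ i, (wt j i + ε) * u i ^ 2 ≤ ∑ i, (wt j' i + ε) * u i ^ 2 := by
      apply Finset.sum_le_sum
      intro i _
      apply mul_le_mul_of_nonneg_right _ (sq_nonneg _)
      have := wt_anti (j := j') (j' := j) (k := i) (hle i)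
      linarith
    by_cases h : l = k
    · subst h
      have h1 : wt j' l = 2 * wt j l := by
        unfold wt
        rw [hj', Function.update_self]
        obtain ⟨m, hm⟩ : ∃ m, j l = m + 1 := ⟨j l - 1, by omega⟩
        rw [hm, Nat.add_sub_cancel, pow_succ]; ring
      rw [h1]
      have h2 := hcon u hu
      have h3 : τ / 2 * ∑ i, (wt j i + ε) * u i ^ 2 ≤ τ / 2 * ∑ i, (wt j' i + ε) * u i ^ 2 :=
        mul_le_mul_of_nonneg_left hsum (by positivity)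
      linarith
    · have h1 : wt j' l = wt j l := by
        unfold wt
        rw [hj', Function.update_of_ne h]
      rw [h1]
      refine (feas_expo hε hτ V u hu l).trans ?_
      exact mul_le_mul_of_nonneg_left hsum hτ.le
  have h1 := expo_le hfe k
  rw [← hj, hj', Function.update_self] at h1
  omega

/-- scaling map into Euclidean space -/
noncomputable def scl (W : ι → ℝ) : (ι → ℝ) →ₗ[ℝ] EuclideanSpace ℝ ι :=
  (WithLp.linearEquiv 2 ℝ (ι → ℝ)).symm.toLinearMap ∘ₗ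
    (LinearMap.pi fun l => (Real.sqrt (W l)) • LinearMap.proj l)

lemma scl_apply (W : ι → ℝ) (u : ι → ℝ) (l : ι) : scl W u l = Real.sqrt (W l) * u l := by
  simp [scl]

lemma scl_norm (W : ι → ℝ) (hW : ∀ l, 0 ≤ W l) (u : ι → ℝ) :
    ‖scl W u‖ ^ 2 = ∑ l, W l * u l ^ 2 := by
  rw [EuclideanSpace.norm_sq_eq]
  apply Finset.sum_congr rfl; intro l _
  rw [scl_apply, Real.norm_eq_abs, sq_abs, mul_pow, Real.sq_sqrt (hW l)]

lemma inner_single' (v : EuclideanSpace ℝ ι) (k : ι) :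
    ⟪v, EuclideanSpace.single k (1 : ℝ)⟫_ℝ = v k := by
  rw [EuclideanSpace.inner_single_right]; simp

/-- the projected unit vectors -/
noncomputable def pe (K : Submodule ℝ (EuclideanSpace ℝ ι)) (k : ι) : EuclideanSpace ℝ ι :=
  (K.orthogonalProjectionOnto (EuclideanSpace.single k (1 : ℝ)) : EuclideanSpace ℝ ι)

lemma pe_mem (K : Submodule ℝ (EuclideanSpace ℝ ι)) (k : ι) : pe K k ∈ K :=
  Submodule.coe_mem _

lemma inner_pe (K : Submodule ℝ (EuclideanSpace ℝ ι)) (k : ι) {v : EuclideanSpace ℝ ι}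
    (hv : v ∈ K) : ⟪v, pe K k⟫_ℝ = v k := by
  unfold pe
  have h := Submodule.inner_orthogonalProjectionOnto_eq_of_mem_left (K := K) ⟨v, hv⟩
    (EuclideanSpace.single k (1 : ℝ))
  rw [Submodule.coe_inner] at h
  rw [h, inner_single']

lemma sum_pe (K : Submodule ℝ (EuclideanSpace ℝ ι)) :
    ∑ k, ‖pe K k‖ ^ 2 = Module.finrank ℝ K := by
  set b := stdOrthonormalBasis ℝ K with hb
  have h1 : ∀ k, ‖pe K k‖ ^ 2 = ∑ j, ((b j : EuclideanSpace ℝ ι) k) ^ 2 := by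
    intro k
    have h2 : ‖pe K k‖ ^ 2 = ‖K.orthogonalProjectionOnto (EuclideanSpace.single k (1 : ℝ))‖ ^ 2 := by
      unfold pe; rw [Submodule.coe_norm]
    rw [h2, ← OrthonormalBasis.sum_sq_norm_inner_right b]
    apply Finset.sum_congr rfl; intro j _
    have h3 : ⟪b j, K.orthogonalProjectionOnto (EuclideanSpace.single k (1 : ℝ))⟫_ℝ =
        (b j : EuclideanSpace ℝ ι) k := by
      rw [Submodule.coe_inner]
      exact inner_pe K k (b j).2
    rw [h3, Real.norm_eq_abs, sq_abs]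
  rw [Finset.sum_congr rfl (fun k _ => h1 k), Finset.sum_comm]
  have h4 : ∀ j, ∑ k, ((b j : EuclideanSpace ℝ ι) k) ^ 2 = 1 := by
    intro j
    have h5 : ‖(b j : EuclideanSpace ℝ ι)‖ = 1 := by
      rw [← Submodule.coe_norm]; exact b.orthonormal.1 j
    have h6 := EuclideanSpace.norm_sq_eq (b j : EuclideanSpace ℝ ι)
    rw [h5] at h6
    simp only [Real.norm_eq_abs, sq_abs] at h6
    rw [← h6]; norm_num
  rw [Finset.sum_congr rfl (fun j _ => h4 j)]
  simp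

/-- trace bound -/
lemma trace_bound (W : ι → ℝ) (hW : ∀ l, 0 ≤ W l) (V : Submodule ℝ (ι → ℝ)) (S : Finset ι)
    (c : ℝ) (hS : ∀ k ∈ S, ∃ u ∈ V, c * ∑ l, W l * u l ^ 2 < W k * u k ^ 2) :
    c * (S.card : ℝ) ≤ Module.finrank ℝ V := by
  set K := V.map (scl W) with hK
  have h1 : ∀ k ∈ S, c ≤ ‖pe K k‖ ^ 2 := by
    intro k hk
    obtain ⟨u, hu, hlt⟩ := hS k hk
    have hm : scl W u ∈ K := Submodule.mem_map_of_mem hu
    have h2 := inner_pe K k hm
    have h3 : (scl W u k) ^ 2 ≤ ‖scl W u‖ ^ 2 * ‖pe K k‖ ^ 2 := by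
      rw [← h2, ← mul_pow, ← sq_abs]
      exact pow_le_pow_left₀ (abs_nonneg _) (abs_real_inner_le_norm _ _) 2
    have h4 : (scl W u k) ^ 2 = W k * u k ^ 2 := by
      rw [scl_apply, mul_pow, Real.sq_sqrt (hW k)]
    rw [h4, scl_norm W hW u] at h3
    set A := ∑ l, W l * u l ^ 2 with hA
    have hA0 : 0 ≤ A := Finset.sum_nonneg fun l _ => mul_nonneg (hW l) (sq_nonneg _)
    by_contra hcon
    push Not at hcon
    have h5 : A * ‖pe K k‖ ^ 2 ≤ A * c := mul_le_mul_of_nonneg_left hcon.le hA0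
    linarith
  have h2 : c * (S.card : ℝ) ≤ ∑ k ∈ S, ‖pe K k‖ ^ 2 := by
    have : ∑ k ∈ S, c ≤ ∑ k ∈ S, ‖pe K k‖ ^ 2 := Finset.sum_le_sum h1
    rw [Finset.sum_const, nsmul_eq_mul] at this
    linarith
  have h3 : ∑ k ∈ S, ‖pe K k‖ ^ 2 ≤ ∑ k, ‖pe K k‖ ^ 2 :=
    Finset.sum_le_sum_of_subset_of_nonneg (Finset.subset_univ _) (fun _ _ _ => by positivity)
  have h4 : (Module.finrank ℝ K : ℝ) ≤ Module.finrank ℝ V := by
    exact_mod_cast Submodule.finrank_map_le (scl W) V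
  rw [sum_pe] at h3
  linarith

/-- few coordinates have reduced weight -/
lemma count_bound (hε : 0 < ε) (hτ : 0 < τ) (V : Submodule ℝ (ι → ℝ)) :
    τ / 2 * ((Finset.univ.filter (fun k => 1 ≤ expo ε τ V k)).card : ℝ) ≤
      Module.finrank ℝ V := by
  apply trace_bound (fun l => wt (expo ε τ V) l + ε)
    (fun l => by have := wt_pos (expo ε τ V) l; positivity)
  intro k hk
  rw [Finset.mem_filter] at hk
  obtain ⟨u, hu, hlt⟩ := expo_witness hε hτ V k hk.2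
  refine ⟨u, hu, hlt.trans_le ?_⟩
  apply mul_le_mul_of_nonneg_right _ (sq_nonneg _)
  linarith

lemma sum_one_sub_wt (hε : 0 < ε) (hτ : 0 < τ) (V : Submodule ℝ (ι → ℝ)) :
    τ / 2 * ∑ k, (1 - wt (expo ε τ V) k) ≤ Module.finrank ℝ V := by
  refine le_trans ?_ (count_bound hε hτ V)
  apply mul_le_mul_of_nonneg_left _ (by positivity)
  rw [Finset.card_filter]
  push_cast
  apply Finset.sum_le_sum
  intro k _
  by_cases h : 1 ≤ expo ε τ V k
  · rw [if_pos h]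
    have := wt_pos (expo ε τ V) k
    linarith
  · rw [if_neg h]
    have : expo ε τ V k = 0 := by omega
    unfold wt
    rw [this]; simp

/-- representers of the coordinate functionals -/
theorem exists_repr (hε : 0 < ε) (hτ : 0 ≤ τ) (V : Submodule ℝ (ι → ℝ)) (ω : ι → ℝ)
    (hω0 : ∀ k, 0 < ω k) (hω1 : ∀ k, ω k ≤ 1)
    (hfe : ∀ u ∈ V, ∀ k, ω k * u k ^ 2 ≤ τ * ∑ l, (ω l + ε) * u l ^ 2) :
    ∃ b : ι → EuclideanSpace ℝ ι,
      (∀ k, ω k * ‖b k‖ ^ 2 ≤ τ) ∧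
      (∀ α : EuclideanSpace ℝ ι, ∑ k, ω k ^ 2 * ⟪α, b k⟫_ℝ ^ 2 ≤ ‖α‖ ^ 2) ∧
      (∀ u ∈ V, ∀ (y : ι → ℝ) (θ : ℝ),
        θ ^ 2 * (∑ k, ω k * y k ^ 2 - ‖∑ k, (y k * ω k) • b k‖ ^ 2) ≤
          ∑ k, ω k * (u k + θ * y k) ^ 2 + ε * ∑ k, u k ^ 2) := by
  set W : ι → ℝ := fun l => ω l + ε with hWd
  have hW : ∀ l, 0 < W l := fun l => by have := hω0 l; simp only [hWd]; linarith
  have hW0 : ∀ l, 0 ≤ W l := fun l => (hW l).le
  have hsq : ∀ l, 0 < Real.sqrt (W l) := fun l => Real.sqrt_pos.mpr (hW l)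
  set K := V.map (scl W) with hK
  set b : ι → EuclideanSpace ℝ ι := fun k => (Real.sqrt (W k))⁻¹ • pe K k with hb
  have hbK : ∀ k, b k ∈ K := fun k => K.smul_mem _ (pe_mem K k)
  have hin : ∀ u ∈ V, ∀ k, ⟪scl W u, b k⟫_ℝ = u k := by
    intro u hu k
    have hm : scl W u ∈ K := Submodule.mem_map_of_mem hu
    rw [hb]
    show ⟪scl W u, (Real.sqrt (W k))⁻¹ • pe K k⟫_ℝ = u k
    rw [inner_smul_right, inner_pe K k hm, scl_apply, ← mul_assoc,
      inv_mul_cancel₀ (hsq k).ne', one_mul]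
  refine ⟨b, ?_, ?_, ?_⟩
  · intro k
    obtain ⟨u, hu, hub⟩ := (Submodule.mem_map).mp (hbK k)
    have h1 : u k = ‖b k‖ ^ 2 := by
      rw [← hin u hu k, hub, real_inner_self_eq_norm_sq]
    have h2 := hfe u hu k
    have h3 : ∑ l, (ω l + ε) * u l ^ 2 = ‖b k‖ ^ 2 := by
      rw [← hub, scl_norm W hW0 u]
    rw [h1, h3] at h2
    rcases (sq_nonneg ‖b k‖).lt_or_eq with h4 | h4
    · have h5 : ‖b k‖ ^ 2 * (ω k * ‖b k‖ ^ 2) ≤ ‖b k‖ ^ 2 * τ := by nlinarith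
      exact le_of_mul_le_mul_left h5 h4
    · rw [← h4, mul_zero]
      exact hτ
  · intro α
    set v : EuclideanSpace ℝ ι := (K.orthogonalProjectionOnto α : EuclideanSpace ℝ ι) with hv
    have h1 : ∀ k, ⟪α, pe K k⟫_ℝ = v k := by
      intro k
      have h2 := Submodule.inner_orthogonalProjectionOnto_eq_of_mem_right (K := K)
        ⟨pe K k, pe_mem K k⟩ α
      rw [Submodule.coe_inner] at h2
      rw [← h2]
      exact inner_pe K k (Submodule.coe_mem _)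
    have h3 : ∀ k, ω k ^ 2 * ⟪α, b k⟫_ℝ ^ 2 ≤ (v k) ^ 2 := by
      intro k
      have e1 : ⟪α, b k⟫_ℝ = (Real.sqrt (W k))⁻¹ * v k := by
        show ⟪α, (Real.sqrt (W k))⁻¹ • pe K k⟫_ℝ = _
        rw [inner_smul_right, h1 k]
      rw [e1, mul_pow, inv_pow, Real.sq_sqrt (hW0 k)]
      have e2 : ω k ^ 2 * (W k)⁻¹ ≤ 1 := by
        rw [← div_eq_mul_inv, div_le_one (hW k)]
        have h5 := hω0 k
        have h6 := hω1 k
        simp only [hWd]
        nlinarith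
      calc ω k ^ 2 * ((W k)⁻¹ * v k ^ 2) = (ω k ^ 2 * (W k)⁻¹) * v k ^ 2 := by ring
        _ ≤ 1 * v k ^ 2 := mul_le_mul_of_nonneg_right e2 (sq_nonneg _)
        _ = v k ^ 2 := one_mul _
    have h4 : ∑ k, (v k) ^ 2 = ‖v‖ ^ 2 := by
      rw [EuclideanSpace.norm_sq_eq]
      apply Finset.sum_congr rfl; intro k _
      rw [Real.norm_eq_abs, sq_abs]
    have h5 : ‖v‖ ≤ ‖α‖ := by
      rw [hv, ← Submodule.coe_norm]
      exact K.norm_orthogonalProjectionOnto_apply_le α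
    calc ∑ k, ω k ^ 2 * ⟪α, b k⟫_ℝ ^ 2 ≤ ∑ k, (v k) ^ 2 :=
          Finset.sum_le_sum fun k _ => h3 k
      _ = ‖v‖ ^ 2 := h4
      _ ≤ ‖α‖ ^ 2 := pow_le_pow_left₀ (norm_nonneg _) h5 2
  · intro u hu y θ
    set S : EuclideanSpace ℝ ι := ∑ k, (y k * ω k) • b k with hS
    have h1 : ⟪scl W u, S⟫_ℝ = ∑ k, ω k * u k * y k := by
      rw [hS, inner_sum]
      apply Finset.sum_congr rfl; intro k _
      rw [inner_smul_right, hin u hu k]; ring
    have h2 : ∑ k, ω k * (u k + θ * y k) ^ 2 + ε * ∑ k, u k ^ 2 =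
        ‖scl W u‖ ^ 2 + 2 * θ * ⟪scl W u, S⟫_ℝ + θ ^ 2 * ∑ k, ω k * y k ^ 2 := by
      rw [h1, scl_norm W hW0 u, Finset.mul_sum, Finset.mul_sum, Finset.mul_sum,
        ← Finset.sum_add_distrib, ← Finset.sum_add_distrib, ← Finset.sum_add_distrib]
      apply Finset.sum_congr rfl; intro k _
      simp only [hWd]; ring
    have h3 : ‖scl W u + θ • S‖ ^ 2 = ‖scl W u‖ ^ 2 + 2 * θ * ⟪scl W u, S⟫_ℝ +
        θ ^ 2 * ‖S‖ ^ 2 := by
      rw [norm_add_sq_real, inner_smul_right, norm_smul, mul_pow, Real.norm_eq_abs, sq_abs]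
      ring
    have h4 : 0 ≤ ‖scl W u + θ • S‖ ^ 2 := sq_nonneg _
    rw [h2]
    nlinarith

end BU860
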