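import Mathlib
import Pool.Agent.Helper860.BUSlice
import Pool.Agent.Helper860.BUWeights
import Pool.Agent.Helper860.BUPot

/-! One-step expectation bound for the potential. -/

set_option linter.unusedSectionVars false

namespace BU860

open Finset
open scoped InnerProductSpace Pointwise

variable {ι : Type*} [Fintype ι] [DecidableEq ι]

lemma sum_sq_dev (E : Finset ι) (F : ι → Bool) :
    ∑ k ∈ E, (xi F k - pr E (cnt E F)) ^ 2 =
      (E.card : ℝ) * (pr E (cnt E F) * (1 - pr E (cnt E F))) := by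
  rcases Finset.eq_empty_or_nonempty E with h0 | ⟨k0, hk0⟩
  · subst h0; simp
  set p := pr E (cnt E F) with hp
  have h1 : (E.card : ℝ) * p = ∑ k ∈ E, xi F k := by
    rw [hp, card_mul_pr hk0, cnt_cast]
  have h2 : ∀ k ∈ E, (xi F k - p) ^ 2 = (1 - 2 * p) * xi F k + p ^ 2 := by
    intro k _
    have := xi_sq F k
    ring_nf
    rw [this]; ring
  rw [Finset.sum_congr rfl h2, Finset.sum_add_distrib, ← Finset.mul_sum, ← h1,
    Finset.sum_const, nsmul_eq_mul]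
  ring

lemma pr_bounds (E : Finset ι) (F : ι → Bool) :
    0 ≤ pr E (cnt E F) ∧ pr E (cnt E F) ≤ 1 := by
  unfold pr
  constructor
  · positivity
  · apply div_le_one_of_le₀ _ (by positivity)
    exact_mod_cast cnt_le E F

variable {H : Type*} [NormedAddCommGroup H] [InnerProductSpace ℝ H]

lemma perE (E : Finset ι) (ω γ : ι → ℝ) (c : ι → H) (hω : ∀ k, 0 < ω k) (F : ι → Bool)
    {θ : ℝ} (hθ : θ ^ 2 ≤ 1) :
    2 * θ * cs E (pr E (cnt E F)) γ F -
      θ ^ 2 * (4 * ∑ k ∈ E, ω k * (xi F k - pr E (cnt E F)) ^ 2 -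
        2 * ‖cs E (pr E (cnt E F)) c F‖ ^ 2) ≤ gE E ω γ c F := by
  unfold gE
  set p := pr E (cnt E F) with hp
  set g := cs E p γ F with hg
  set Q := ‖cs E p c F‖ ^ 2 with hQ
  set Wt := 4 * ∑ k ∈ E, ω k * (xi F k - p) ^ 2 with hWt
  set N := 4 * (p * (1 - p)) * ∑ k ∈ E, ω k with hN
  obtain ⟨hp0, hp1⟩ := pr_bounds E F
  rw [← hp] at hp0 hp1
  have hpq : 0 ≤ p * (1 - p) := mul_nonneg hp0 (by linarith)
  have hΩ0 : 0 ≤ ∑ k ∈ E, ω k := Finset.sum_nonneg fun k _ => (hω k).le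
  have hN0 : 0 ≤ N := by rw [hN]; positivity
  have hm1 : 2 * Q - N / 4 ≤ max (2 * Q - N / 4) 0 := le_max_left _ _
  have hm1' : 0 ≤ max (2 * Q - N / 4) 0 := le_max_right _ _
  have hm2 : 3 * N / 4 - Wt ≤ max (3 * N / 4 - Wt) 0 := le_max_left _ _
  have hm2' : 0 ≤ max (3 * N / 4 - Wt) 0 := le_max_right _ _
  set A := max (2 * Q - N / 4) 0 with hA
  set B := max (3 * N / 4 - Wt) 0 with hB
  have hθ0 : 0 ≤ θ ^ 2 := sq_nonneg _
  have h1 : N / 2 - A - B ≤ Wt - 2 * Q := by linarith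
  have h2 : θ ^ 2 * (N / 2 - A - B) ≤ θ ^ 2 * (Wt - 2 * Q) := mul_le_mul_of_nonneg_left h1 hθ0
  have h3 : θ ^ 2 * A ≤ A := by nlinarith
  have h4 : θ ^ 2 * B ≤ B := by nlinarith
  have h5 : 2 * θ * g - θ ^ 2 * (N / 2) ≤ 2 * g ^ 2 / N := by
    rcases hN0.lt_or_eq with hpos | hzero
    · have h6 : 2 * g ^ 2 / N - (2 * θ * g - θ ^ 2 * (N / 2)) =
          (2 / N) * (g - θ * N / 2) ^ 2 := by
        field_simp; ring
      have h7 : 0 ≤ (2 / N) * (g - θ * N / 2) ^ 2 := by positivity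
      linarith
    · have hg0 : g = 0 := by
        rcases Finset.eq_empty_or_nonempty E with h0 | ⟨k0, hk0⟩
        · subst h0; simp [hg, cs]
        · have hΩ : 0 < ∑ k ∈ E, ω k := Finset.sum_pos (fun k _ => hω k) ⟨k0, hk0⟩
          have hz : p * (1 - p) = 0 := by
            rw [hN] at hzero
            have : 4 * (p * (1 - p)) * ∑ k ∈ E, ω k = 0 := hzero.symm
            rcases mul_eq_zero.mp this with h | h
            · linarith
            · exact absurd h hΩ.ne'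
          have h6 := sum_sq_dev E F
          rw [← hp, hz, mul_zero] at h6
          have h7 := (Finset.sum_eq_zero_iff_of_nonneg (fun k _ => sq_nonneg _)).mp h6
          rw [hg]
          unfold cs
          apply Finset.sum_eq_zero
          intro k hk
          have h8 := h7 k hk
          have h9 : xi F k - p = 0 := by
            exact pow_eq_zero_iff (two_ne_zero) |>.mp h8
          rw [h9, zero_smul]
      rw [hg0, ← hzero]; simp
  have h8 : θ ^ 2 * (N / 2 - A - B) = θ ^ 2 * (N / 2) - θ ^ 2 * A - θ ^ 2 * B := by ring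
  linarith

/-- flip the coordinates of `F` -/
noncomputable def flp (x : ι → ℝ) (F : ι → Bool) : ι → ℝ := fun k => x k * (1 - 2 * xi F k)

/-- the weights attached to a set of points -/
noncomputable def om (S : Set (ι → ℝ)) : ι → ℝ :=
  wt (expo (1 / (4 * (Fintype.card ι : ℝ))) (1 / 32) (Submodule.span ℝ S))

/-- the full potential -/
noncomputable def Psi (σ : ι → ℝ) (S : Set (ι → ℝ)) : ℝ :=
  phi σ (om S) S + 4 * ∑ k, (1 - om S k)

lemma om_pos (S : Set (ι → ℝ)) (k : ι) : 0 < om S k := wt_pos _ _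
lemma om_le_one (S : Set (ι → ℝ)) (k : ι) : om S k ≤ 1 := wt_le_one _ _

lemma om_anti (hn : 0 < Fintype.card ι) {S S' : Set (ι → ℝ)} (h : S ⊆ S') (k : ι) :
    om S' k ≤ om S k := by
  unfold om
  apply wt_anti
  apply expo_mono
  · positivity
  · norm_num
  · exact Submodule.span_mono h

lemma sq_diff_le_four {a b : ℝ} (ha : |a| ≤ 1) (hb : |b| ≤ 1) : (a - b) ^ 2 ≤ 4 := by
  have h7 : |a - b| ≤ 2 := by
    calc |a - b| ≤ |a| + |b| := abs_sub _ _
      _ ≤ 2 := by linarith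
  rw [← sq_abs]
  calc |a - b| ^ 2 ≤ 2 ^ 2 := pow_le_pow_left₀ (abs_nonneg _) h7 2
    _ = 4 := by norm_num

lemma psi_change {σ : ι → ℝ} (hσ : ∀ k, |σ k| ≤ 1) {ω ω' : ι → ℝ} {S : Set (ι → ℝ)}
    (hS : S.Nonempty) (hb : ∀ v ∈ S, ∀ k, |v k| ≤ 1) (hω : ∀ k, 0 ≤ ω k)
    (h : ∀ k, ω' k ≤ ω k) :
    phi σ ω S + 4 * ∑ k, (1 - ω k) ≤ phi σ ω' S + 4 * ∑ k, (1 - ω' k) := by
  have h1 : phi σ ω S + 4 * ∑ k, (1 - ω k) - 4 * ∑ k, (1 - ω' k) ≤ phi σ ω' S := by
    apply le_phi hS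
    intro z hz
    have h2 := phi_le (σ := σ) hω hz
    have h3 : nrm σ ω z + 4 * ∑ k, (1 - ω k) - 4 * ∑ k, (1 - ω' k) ≤ nrm σ ω' z := by
      unfold nrm
      have h4 : ∀ k ∈ (Finset.univ : Finset ι),
          ω k * (σ k - z k) ^ 2 + 4 * (1 - ω k) - 4 * (1 - ω' k) ≤ ω' k * (σ k - z k) ^ 2 := by
        intro k _
        have h5 := sq_diff_le_four (hσ k) (hul_bound hb hz k)
        have h6 := h k
        nlinarith
      have h7 := Finset.sum_le_sum h4
      rw [Finset.sum_sub_distrib, Finset.sum_add_distrib, ← Finset.mul_sum,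
        ← Finset.mul_sum] at h7
      exact h7
    linarith
  linarith

lemma sum_split (D : Finset ι) {M : Type*} [AddCommMonoid M] (f : ι → M) :
    ∑ k, f k = ∑ k ∈ D, f k + ∑ k ∈ Dᶜ, f k := (Finset.sum_add_sum_compl D f).symm

/-- one-step expectation bound -/
theorem step_exp (hn : 0 < Fintype.card ι) {S : Set (ι → ℝ)} (hf : S.Finite)
    (hS1 : ∀ v ∈ S, ∀ k, v k ^ 2 = 1) {σ : ι → ℝ} (hσ : ∀ k, |σ k| ≤ 1)
    {x y : ι → ℝ} (hx : x ∈ S) (hy : y ∈ S) (D : Finset ι)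
    (hDm : ∀ k ∈ D, y k = - x k) (hDc : ∀ k ∉ D, y k = x k)
    (μ : (ι → Bool) → ℝ) (hμ0 : ∀ F, 0 ≤ μ F) (hμ1 : ∑ F, μ F = 1)
    (hinvD : ∀ k ∈ D, ∀ l ∈ D, ∀ F, μ (swp k l F) = μ F)
    (hinvC : ∀ k ∈ Dᶜ, ∀ l ∈ Dᶜ, ∀ F, μ (swp k l F) = μ F) :
    Psi σ S - 97 ≤ ∑ F, μ F * Psi σ (insert (flp x F) S) := by
  have hS : S.Nonempty := ⟨x, hx⟩
  set n : ℝ := (Fintype.card ι : ℝ) with hnn
  have hnpos : 0 < n := by rw [hnn]; exact_mod_cast hn
  set ε : ℝ := 1 / (4 * n) with hε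
  have hεpos : 0 < ε := by rw [hε]; positivity
  set ω := om S with hω
  have hω0 : ∀ k, 0 < ω k := fun k => om_pos S k
  have hω1 : ∀ k, ω k ≤ 1 := fun k => om_le_one S k
  have habs : ∀ v ∈ S, ∀ k, |v k| ≤ 1 := by
    intro v hv k
    have := hS1 v hv k
    rw [← sq_abs] at this
    nlinarith [abs_nonneg (v k)]
  obtain ⟨b, hb1, hb2, hb3⟩ := exists_repr (τ := 1 / 32) hεpos (by norm_num)
    (Submodule.span ℝ S) ω hω0 hω1 (feas_expo hεpos (by norm_num) _)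
  obtain ⟨r, hr, hstep⟩ := one_step (σ := σ) (ω := ω) hS hf habs hσ (fun k => (hω0 k).le)
    hεpos.le (by rw [hε]; field_simp; exact le_refl _) b hb3
  set γ : ι → ℝ := fun k => -2 * x k * (ω k * r k) with hγ
  set c : ι → EuclideanSpace ℝ ι := fun k => (-2 * x k * ω k) • b k with hc
  set G : (ι → Bool) → ℝ := fun F => gE D ω γ c F + gE Dᶜ ω γ c F with hG
  have hx1 : ∀ k, x k ^ 2 = 1 := fun k => hS1 x hx k
  have hγb : ∀ k, |γ k| ≤ 4 * ω k := by
    intro k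
    simp only [hγ]
    rw [abs_mul, abs_mul, abs_mul]
    have h1 := habs x hx k
    have h2 := hr k
    have h3 : |ω k| = ω k := abs_of_pos (hω0 k)
    rw [h3]
    have h4 : |(-2 : ℝ)| = 2 := by norm_num
    rw [h4]
    have h5 := hω0 k
    have h6 : |x k| * |r k| ≤ 1 * 2 := mul_le_mul h1 h2 (abs_nonneg _) (by norm_num)
    calc 2 * |x k| * (ω k * |r k|) = 2 * ω k * (|x k| * |r k|) := by ring
      _ ≤ 2 * ω k * (1 * 2) := mul_le_mul_of_nonneg_left h6 (by positivity)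
      _ = 4 * ω k := by ring
  have hcn : ∀ k, ‖c k‖ ^ 2 = 4 * ω k ^ 2 * ‖b k‖ ^ 2 := by
    intro k
    simp only [hc]
    rw [norm_smul, mul_pow, Real.norm_eq_abs, sq_abs]
    have := hx1 k
    calc (-2 * x k * ω k) ^ 2 * ‖b k‖ ^ 2 = 4 * (x k ^ 2) * ω k ^ 2 * ‖b k‖ ^ 2 := by ring
      _ = _ := by rw [this]; ring
  have hcb : ∀ k, ‖c k‖ ^ 2 ≤ ω k / 8 := by
    intro k
    rw [hcn k]
    have h1 := hb1 k
    have h2 := hω0 k
    nlinarith
  have hBk : ∀ α : EuclideanSpace ℝ ι, ∀ k, ⟪α, c k⟫_ℝ ^ 2 = 4 * (ω k ^ 2 * ⟪α, b k⟫_ℝ ^ 2) := by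
    intro α k
    simp only [hc]
    rw [inner_smul_right]
    have := hx1 k
    calc (-2 * x k * ω k * ⟪α, b k⟫_ℝ) ^ 2 = 4 * (x k ^ 2) * (ω k ^ 2 * ⟪α, b k⟫_ℝ ^ 2) := by ring
      _ = _ := by rw [this]; ring
  have hB : ∀ E : Finset ι, ∀ α : EuclideanSpace ℝ ι, ∑ k ∈ E, ⟪α, c k⟫_ℝ ^ 2 ≤ 4 * ‖α‖ ^ 2 := by
    intro E α
    have h1 : ∑ k ∈ E, ⟪α, c k⟫_ℝ ^ 2 ≤ ∑ k, ⟪α, c k⟫_ℝ ^ 2 :=
      Finset.sum_le_sum_of_subset_of_nonneg (Finset.subset_univ _) (fun _ _ _ => sq_nonneg _)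
    have h2 : ∑ k, ⟪α, c k⟫_ℝ ^ 2 = 4 * ∑ k, ω k ^ 2 * ⟪α, b k⟫_ℝ ^ 2 := by
      rw [Finset.mul_sum]
      exact Finset.sum_congr rfl fun k _ => hBk α k
    have h3 := hb2 α
    linarith
  have hGsum : ∑ F, μ F * G F ≤ 96 := by
    have h1 := slice_total D μ hμ0 hinvD ω γ c (fun k _ => (hω0 k).le) (fun k _ => hω1 k)
      (fun k _ => hγb k) (fun k _ => hcb k) (hB D)
    have h2 := slice_total Dᶜ μ hμ0 hinvC ω γ c (fun k _ => (hω0 k).le) (fun k _ => hω1 k)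
      (fun k _ => hγb k) (fun k _ => hcb k) (hB Dᶜ)
    rw [hμ1] at h1 h2
    have h3 : ∑ F, μ F * G F = ∑ F, μ F * gE D ω γ c F + ∑ F, μ F * gE Dᶜ ω γ c F := by
      rw [← Finset.sum_add_distrib]
      apply Finset.sum_congr rfl; intro F _
      simp only [hG]; ring
    rw [h3]; linarith
  -- pointwise bound
  have hpt : ∀ F, phi σ ω S - 1 - G F ≤ phi σ ω (insert (flp x F) S) := by
    intro F
    set pD := pr D (cnt D F) with hpD
    set pC := pr Dᶜ (cnt Dᶜ F) with hpC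
    obtain ⟨hD0, hD1⟩ := pr_bounds D F
    obtain ⟨hC0, hC1⟩ := pr_bounds Dᶜ F
    rw [← hpD] at hD0 hD1
    rw [← hpC] at hC0 hC1
    set ρ : ℝ := 1 - 2 * pD with hρ
    set τ : ℝ := 1 - 2 * pC with hτ
    set m : ι → ℝ := ((ρ + τ) / 2) • x + ((τ - ρ) / 2) • y with hm
    have hmem : m ∈ hul S := by
      apply hul_comb hS (subset_hul S hx) (subset_hul S hy)
      have h1 : |ρ| ≤ 1 := by rw [abs_le]; constructor <;> rw [hρ] <;> linarith
      have h2 : |τ| ≤ 1 := by rw [abs_le]; constructor <;> rw [hτ] <;> linarith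
      rw [abs_le] at h1 h2
      rcases abs_cases ((ρ + τ) / 2) with h3 | h3 <;>
      rcases abs_cases ((τ - ρ) / 2) with h4 | h4 <;> linarith
    set yv : ι → ℝ := fun k => if k ∈ D then -2 * x k * (xi F k - pD) else
      -2 * x k * (xi F k - pC) with hyv
    have hsum : m + yv = flp x F := by
      funext k
      simp only [hm, hyv, flp, Pi.add_apply, Pi.smul_apply, smul_eq_mul]
      by_cases hk : k ∈ D
      · rw [if_pos hk, hDm k hk, hρ, hτ]; ring
      · rw [if_neg hk, hDc k hk, hρ, hτ]; ring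
    rw [← hsum]
    apply hstep m hmem yv (G F)
    intro θ hθ
    have hpD' := perE D ω γ c hω0 F hθ
    have hpC' := perE Dᶜ ω γ c hω0 F hθ
    rw [← hpD] at hpD'
    rw [← hpC] at hpC'
    have e1 : ∑ k, ω k * r k * yv k = cs D pD γ F + cs Dᶜ pC γ F := by
      rw [sum_split D]
      unfold cs
      congr 1
      · apply Finset.sum_congr rfl; intro k hk
        simp only [hyv, hγ, smul_eq_mul]
        rw [if_pos hk]; ring
      · apply Finset.sum_congr rfl; intro k hk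
        simp only [hyv, hγ, smul_eq_mul]
        rw [if_neg (Finset.mem_compl.mp hk)]; ring
    have e2 : ∑ k, (yv k * ω k) • b k = cs D pD c F + cs Dᶜ pC c F := by
      rw [sum_split D]
      unfold cs
      congr 1
      · apply Finset.sum_congr rfl; intro k hk
        simp only [hyv, hc]
        rw [if_pos hk, smul_smul]
        congr 1; ring
      · apply Finset.sum_congr rfl; intro k hk
        simp only [hyv, hc]
        rw [if_neg (Finset.mem_compl.mp hk), smul_smul]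
        congr 1; ring
    have e3 : ∑ k, ω k * yv k ^ 2 = 4 * ∑ k ∈ D, ω k * (xi F k - pD) ^ 2 +
        4 * ∑ k ∈ Dᶜ, ω k * (xi F k - pC) ^ 2 := by
      rw [sum_split D, Finset.mul_sum, Finset.mul_sum]
      congr 1
      · apply Finset.sum_congr rfl; intro k hk
        simp only [hyv]
        rw [if_pos hk]
        have := hx1 k
        calc ω k * (-2 * x k * (xi F k - pD)) ^ 2 = 4 * (ω k * (xi F k - pD) ^ 2) * x k ^ 2 := by
              ring
          _ = _ := by rw [this]; ring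
      · apply Finset.sum_congr rfl; intro k hk
        simp only [hyv]
        rw [if_neg (Finset.mem_compl.mp hk)]
        have := hx1 k
        calc ω k * (-2 * x k * (xi F k - pC)) ^ 2 = 4 * (ω k * (xi F k - pC) ^ 2) * x k ^ 2 := by
              ring
          _ = _ := by rw [this]; ring
    rw [e1, e2, e3]
    have e4 : ‖cs D pD c F + cs Dᶜ pC c F‖ ^ 2 ≤
        2 * ‖cs D pD c F‖ ^ 2 + 2 * ‖cs Dᶜ pC c F‖ ^ 2 := by
      have h1 := norm_sub_sq_le (cs D pD c F) (-(cs Dᶜ pC c F))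
      rw [sub_neg_eq_add, norm_neg] at h1
      exact h1
    have e5 : θ ^ 2 * ‖cs D pD c F + cs Dᶜ pC c F‖ ^ 2 ≤
        θ ^ 2 * (2 * ‖cs D pD c F‖ ^ 2 + 2 * ‖cs Dᶜ pC c F‖ ^ 2) :=
      mul_le_mul_of_nonneg_left e4 (sq_nonneg _)
    simp only [hG]
    have e6 : 2 * θ * (cs D pD γ F + cs Dᶜ pC γ F) -
        θ ^ 2 * (4 * ∑ k ∈ D, ω k * (xi F k - pD) ^ 2 +
        4 * ∑ k ∈ Dᶜ, ω k * (xi F k - pC) ^ 2 - ‖cs D pD c F + cs Dᶜ pC c F‖ ^ 2) =
        (2 * θ * cs D pD γ F - θ ^ 2 * (4 * ∑ k ∈ D, ω k * (xi F k - pD) ^ 2 -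
          2 * ‖cs D pD c F‖ ^ 2)) +
        (2 * θ * cs Dᶜ pC γ F - θ ^ 2 * (4 * ∑ k ∈ Dᶜ, ω k * (xi F k - pC) ^ 2 -
          2 * ‖cs Dᶜ pC c F‖ ^ 2)) +
        (θ ^ 2 * ‖cs D pD c F + cs Dᶜ pC c F‖ ^ 2 -
          θ ^ 2 * (2 * ‖cs D pD c F‖ ^ 2 + 2 * ‖cs Dᶜ pC c F‖ ^ 2)) := by ring
    rw [e6]
    linarith
  -- pass to the new weights
  have hflp : ∀ F, ∀ k, flp x F k ^ 2 = 1 := by
    intro F k
    simp only [flp]
    rw [mul_pow, hx1 k, one_mul]
    rcases xi_cases F k with h | h <;> rw [h] <;> norm_num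
  have hnew : ∀ F, phi σ ω S - 1 - G F + 4 * ∑ k, (1 - ω k) ≤ Psi σ (insert (flp x F) S) := by
    intro F
    have hb' : ∀ v ∈ insert (flp x F) S, ∀ k, |v k| ≤ 1 := by
      intro v hv k
      rcases Set.mem_insert_iff.mp hv with h | h
      · subst h
        have := hflp F k
        rw [← sq_abs] at this
        nlinarith [abs_nonneg (flp x F k)]
      · exact habs v h k
    have h1 := psi_change hσ (ω := ω) (ω' := om (insert (flp x F) S))
      (Set.insert_nonempty (flp x F) S) hb' (fun k => (hω0 k).le)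
      (fun k => om_anti hn (Set.subset_insert _ _) k)
    have h2 := hpt F
    unfold Psi
    linarith
  have hfinal : ∑ F, μ F * (phi σ ω S - 1 - G F + 4 * ∑ k, (1 - ω k)) ≤
      ∑ F, μ F * Psi σ (insert (flp x F) S) :=
    Finset.sum_le_sum fun F _ => mul_le_mul_of_nonneg_left (hnew F) (hμ0 F)
  have hl : ∀ C0 : ℝ, ∑ F, μ F * (phi σ ω S - 1 - G F + C0) =
      (phi σ ω S - 1 + C0) * ∑ F, μ F - ∑ F, μ F * G F := by
    intro C0
    rw [Finset.mul_sum, ← Finset.sum_sub_distrib]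
    apply Finset.sum_congr rfl; intro F _; ring
  rw [hl, hμ1] at hfinal
  have : Psi σ S = phi σ ω S + 4 * ∑ k, (1 - ω k) := rfl
  linarith

end BU860
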