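import Mathlib
import Pool.Agent.Helper860.BUModel
import Pool.Agent.Helper860.BUStep

/-! The linear lower bound. -/

set_option linter.unusedSectionVars false

open scoped ENNReal
open Finset BU860

namespace UBB

/-! ### finite expectations -/

/-- expectation of a real function under a distribution on a finite type -/
noncomputable def ev {α : Type*} [Fintype α] (p : PMF α) (g : α → ℝ) : ℝ :=
  ∑ a, (p a).toReal * g a

lemma ev_one {α : Type*} [Fintype α] (p : PMF α) : ∑ a, (p a).toReal = 1 := by
  rw [← ENNReal.toReal_sum (fun a _ => p.apply_ne_top a)]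
  have := p.tsum_coe
  rw [tsum_fintype] at this
  rw [this]; simp

lemma ev_bind {α β : Type*} [Fintype α] [Fintype β] (p : PMF α) (q : α → PMF β) (g : β → ℝ) :
    ev (p.bind q) g = ev p (fun a => ev (q a) g) := by
  unfold ev
  have h1 : ∀ b, ((p.bind q) b).toReal = ∑ a, (p a).toReal * ((q a) b).toReal := by
    intro b
    rw [PMF.bind_apply, tsum_fintype, ENNReal.toReal_sum]
    · apply Finset.sum_congr rfl; intro a _
      rw [ENNReal.toReal_mul]
    · intro a _
      exact ENNReal.mul_ne_top (p.apply_ne_top a) ((q a).apply_ne_top b)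
  simp only [h1, Finset.sum_mul, Finset.mul_sum]
  rw [Finset.sum_comm]
  apply Finset.sum_congr rfl; intro a _
  apply Finset.sum_congr rfl; intro b _
  ring

lemma ev_pure {α : Type*} [Fintype α] (a : α) (g : α → ℝ) : ev (PMF.pure a) g = g a := by
  unfold ev
  rw [Finset.sum_eq_single a]
  · simp
  · intro b _ hb
    rw [PMF.pure_apply, if_neg hb]; simp
  · intro h; exact absurd (Finset.mem_univ a) h

lemma ev_map {α β : Type*} [Fintype α] [Fintype β] (p : PMF α) (φ : α → β) (g : β → ℝ) :
    ev (p.map φ) g = ev p (fun a => g (φ a)) := by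
  rw [← PMF.bind_pure_comp, ev_bind]
  congr 1; funext a
  exact ev_pure _ _

lemma ev_mono {α : Type*} [Fintype α] (p : PMF α) {f g : α → ℝ} (h : ∀ a, f a ≤ g a) :
    ev p f ≤ ev p g :=
  Finset.sum_le_sum fun a _ => mul_le_mul_of_nonneg_left (h a) ENNReal.toReal_nonneg

lemma ev_sub_const {α : Type*} [Fintype α] (p : PMF α) (f : α → ℝ) (c : ℝ) :
    ev p (fun a => f a - c) = ev p f - c := by
  unfold ev
  have : ∀ a, (p a).toReal * (f a - c) = (p a).toReal * f a - (p a).toReal * c := by
    intro a; ring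
  simp only [this]
  rw [Finset.sum_sub_distrib, ← Finset.sum_mul, ev_one, one_mul]

/-! ### points as sign vectors -/

variable {n : ℕ}

/-- sign vector of a point -/
def emb (x : Pt n) : Fin n → ℝ := fun k => if x k = true then 1 else -1

lemma emb_sq (x : Pt n) (k : Fin n) : emb x k ^ 2 = 1 := by
  unfold emb; split_ifs <;> norm_num

lemma emb_abs (x : Pt n) (k : Fin n) : |emb x k| ≤ 1 := by
  unfold emb; split_ifs <;> norm_num

lemma flp_emb (u : Pt n) (F : Fin n → Bool) : flp (emb u) F = emb (add2 u F) := by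
  funext k
  unfold flp emb add2 xi
  cases u k <;> cases F k <;> norm_num

lemma add2_self_right (x w : Pt n) : add2 (add2 x w) w = x := by
  funext k; unfold add2
  cases x k <;> cases w k <;> rfl

lemma add2_self_left (u F : Pt n) : add2 (add2 u F) u = F := by
  funext k; unfold add2
  cases u k <;> cases F k <;> rfl

lemma add2_self_left' (u F : Pt n) : add2 u (add2 u F) = F := by
  funext k; unfold add2
  cases u k <;> cases F k <;> rfl

/-- `F ↦ u + F` as a bijection -/
def addE (u : Pt n) : Pt n ≃ Pt n := ⟨add2 u, add2 u, add2_self_left' u, add2_self_left' u⟩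

/-- invariance of a distribution relative to two parents -/
def Inv2 (q : PMF (Pt n)) (u v : Pt n) : Prop :=
  ∀ k l : Fin n, (u k ≠ v k ↔ u l ≠ v l) → ∀ F : Pt n, q (add2 u (swp k l F)) = q (add2 u F)

lemma inv2_uniform (u v : Pt n) : Inv2 (PMF.uniformOfFintype (Pt n)) u v := by
  intro k l _ F; simp

lemma inv2_op {j : ℕ} (op : UnbiasedOp j n) (X : Fin j → Pt n) (u v : Pt n)
    (hX : ∀ i, X i = u ∨ X i = v) : Inv2 (op.dist X) u v := by
  intro k l hkl F
  have h1 : ∀ G : Pt n, op.dist X (add2 u G) = op.dist (fun i => add2 (X i) u) G := by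
    intro G
    have := op.xor_inv X (add2 u G) u
    rw [add2_self_left] at this
    exact this.symm
  rw [h1, h1]
  have h2 : swp k l F = F ∘ (Equiv.swap k l) := rfl
  have h3 : (fun i => add2 (X i) u) = fun i => (add2 (X i) u) ∘ (Equiv.swap k l) := by
    funext i t
    show xor (X i t) (u t) = xor (X i (Equiv.swap k l t)) (u (Equiv.swap k l t))
    rcases hX i with h | h
    · rw [h]; simp
    · rw [h]
      by_cases htk : t = k
      · subst htk
        rw [Equiv.swap_apply_left]
        revert hkl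
        cases u t <;> cases v t <;> cases u l <;> cases v l <;> simp
      · by_cases htl : t = l
        · subst htl
          rw [Equiv.swap_apply_right]
          revert hkl
          cases u t <;> cases v t <;> cases u k <;> cases v k <;> simp
        · rw [Equiv.swap_apply_of_ne_of_ne htk htl]
  calc op.dist (fun i => add2 (X i) u) (swp k l F)
      = op.dist (fun i => (add2 (X i) u) ∘ (Equiv.swap k l)) (F ∘ (Equiv.swap k l)) := by
        rw [← h3, h2]
    _ = op.dist (fun i => add2 (X i) u) F := op.perm_inv _ _ _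

/-- one step in terms of points -/
lemma step_pt (hn : 0 < n) {S : Set (Fin n → ℝ)} (hf : S.Finite)
    (hS1 : ∀ v ∈ S, ∀ k, v k ^ 2 = 1) (z : Pt n) {u v : Pt n} (hu : emb u ∈ S) (hv : emb v ∈ S)
    (q : PMF (Pt n)) (hq : Inv2 q u v) :
    Psi (emb z) S - 97 ≤ ev q (fun x => Psi (emb z) (insert (emb x) S)) := by
  set D : Finset (Fin n) := Finset.univ.filter (fun k => u k ≠ v k) with hD
  set μ : (Fin n → Bool) → ℝ := fun F => (q (add2 u F)).toReal with hμ
  have h1 : ∀ g : Pt n → ℝ, ∑ F, μ F * g (add2 u F) = ∑ x, (q x).toReal * g x := by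
    intro g
    exact Equiv.sum_comp (addE u) (fun x => (q x).toReal * g x)
  have hμ1 : ∑ F, μ F = 1 := by
    have := h1 (fun _ => 1)
    simp only [mul_one] at this
    rw [this, ev_one]
  have h2 := step_exp (ι := Fin n) (by simpa using hn) hf hS1 (σ := emb z) (emb_abs z) hu hv D
    (fun k hk => by
      rw [hD, Finset.mem_filter] at hk
      have := hk.2
      unfold emb
      revert this
      cases u k <;> cases v k <;> simp)
    (fun k hk => by
      rw [hD, Finset.mem_filter] at hk
      have : u k = v k := by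
        by_contra hne
        exact hk ⟨Finset.mem_univ _, hne⟩
      unfold emb
      rw [this])
    μ (fun F => ENNReal.toReal_nonneg) hμ1
    (fun k hk l hl F => by
      rw [hD, Finset.mem_filter] at hk hl
      simp only [hμ]
      rw [hq k l ⟨fun _ => hl.2, fun _ => hk.2⟩ F])
    (fun k hk l hl F => by
      rw [Finset.mem_compl, hD, Finset.mem_filter] at hk hl
      simp only [hμ]
      rw [hq k l ⟨fun h => absurd ⟨Finset.mem_univ _, h⟩ hk,
        fun h => absurd ⟨Finset.mem_univ _, h⟩ hl⟩ F])
  refine h2.trans (le_of_eq ?_)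
  simp only [flp_emb]
  exact h1 (fun x => Psi (emb z) (insert (emb x) S))

/-! ### the point sets of a history -/

/-- virtual starting point: agrees with `z` on the even coordinates only -/
def x0 (z : Pt n) : Pt n := fun i => if i.val % 2 = 0 then z i else !(z i)

/-- set of sign vectors attached to a history -/
def sset (z : Pt n) {m : ℕ} (h : Fin m → Pt n) : Set (Fin n → ℝ) :=
  insert (emb (x0 z)) (Set.range fun i => emb (h i))

lemma sset_finite (z : Pt n) {m : ℕ} (h : Fin m → Pt n) : (sset z h).Finite :=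
  (Set.finite_range _).insert _

lemma sset_sq (z : Pt n) {m : ℕ} (h : Fin m → Pt n) : ∀ v ∈ sset z h, ∀ k, v k ^ 2 = 1 := by
  intro v hv k
  rcases Set.mem_insert_iff.mp hv with h1 | ⟨i, h1⟩
  · rw [h1]; exact emb_sq _ _
  · rw [← h1]; exact emb_sq _ _

lemma sset_snoc (z : Pt n) {m : ℕ} (h : Fin m → Pt n) (x : Pt n) :
    sset z (Fin.snoc (α := fun _ => Pt n) h x : Fin (m + 1) → Pt n) =
      insert (emb x) (sset z h) := by
  unfold sset
  rw [Set.insert_comm]
  congr 1
  ext v
  simp only [Set.mem_range, Set.mem_insert_iff]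
  constructor
  · rintro ⟨i, rfl⟩
    refine Fin.lastCases ?_ (fun j => ?_) i
    · left; simp
    · right; exact ⟨j, by simp⟩
  · rintro (h1 | ⟨j, rfl⟩)
    · exact ⟨Fin.last m, by simp [h1]⟩
    · exact ⟨Fin.castSucc j, by simp⟩

/-- the conditional one-step bound along the process -/
lemma step_law (hn : 0 < n) (R : Rule 2 n) (f : Pt n → ℕ) (z : Pt n) (m : ℕ)
    (h : Fin m → Pt n) :
    Psi (emb z) (sset z h) - 97 ≤
      ev (nextLaw R f m h) (fun x => Psi (emb z) (insert (emb x) (sset z h))) := by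
  have key : ∃ u v : Pt n, emb u ∈ sset z h ∧ emb v ∈ sset z h ∧ Inv2 (nextLaw R f m h) u v := by
    cases m with
    | zero =>
      exact ⟨x0 z, x0 z, Set.mem_insert _ _, Set.mem_insert _ _, inv2_uniform _ _⟩
    | succ m =>
      have hmem : ∀ i : Fin (m + 1), emb (h i) ∈ sset z h :=
        fun i => Set.mem_insert_of_mem _ ⟨i, rfl⟩
      set c := R (m + 1) (fun i => f (h i)) with hc
      have hlaw : nextLaw R f (m + 1) h = c.op.dist (fun i => h (c.idx i)) := rfl
      rw [hlaw]
      obtain ⟨j, hj, idx, op⟩ := c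
      simp only
      clear hlaw hc
      have hj3 : j = 0 ∨ j = 1 ∨ j = 2 := by omega
      rcases hj3 with rfl | rfl | rfl
      · exact ⟨x0 z, x0 z, Set.mem_insert _ _, Set.mem_insert _ _,
          inv2_op op _ _ _ (fun i => i.elim0)⟩
      · refine ⟨h (idx 0), h (idx 0), hmem _, hmem _, inv2_op op _ _ _ (fun i => ?_)⟩
        left
        rw [Subsingleton.elim i 0]
      · refine ⟨h (idx 0), h (idx 1), hmem _, hmem _, inv2_op op _ _ _ (fun i => ?_)⟩
        fin_cases i
        · left; rfl
        · right; rfl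
  obtain ⟨u, v, hu, hv, hq⟩ := key
  exact step_pt hn (sset_finite z h) (sset_sq z h) z hu hv _ hq

lemma ev_queries (hn : 0 < n) (R : Rule 2 n) (f : Pt n → ℕ) (z : Pt n) (m : ℕ) :
    Psi (emb z) {emb (x0 z)} - 97 * m ≤
      ev (queries R f m) (fun h => Psi (emb z) (sset z h)) := by
  induction m with
  | zero =>
    have h1 : queries R f 0 = PMF.pure (fun i => i.elim0) := rfl
    rw [h1, ev_pure]
    have h2 : sset z (fun i : Fin 0 => (i.elim0 : Pt n)) = {emb (x0 z)} := by
      unfold sset
      rw [Set.range_eq_empty]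
      simp
    rw [h2]; simp
  | succ m ih =>
    have h1 : queries R f (m + 1) = (queries R f m).bind fun h =>
      (nextLaw R f m h).map fun x => (Fin.snoc (α := fun _ => Pt n) h x : Fin (m + 1) → Pt n) :=
      rfl
    rw [h1, ev_bind]
    have h2 : ∀ h : Fin m → Pt n, Psi (emb z) (sset z h) - 97 ≤
        ev ((nextLaw R f m h).map fun x =>
          (Fin.snoc (α := fun _ => Pt n) h x : Fin (m + 1) → Pt n))
          (fun h => Psi (emb z) (sset z h)) := by
      intro h
      rw [ev_map]
      simp only [sset_snoc]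
      exact step_law hn R f z m h
    have h3 := ev_mono (queries R f m) h2
    rw [ev_sub_const] at h3
    push_cast
    linarith

/-! ### initial and final values -/

lemma emb_x0 (z : Pt n) (k : Fin n) : emb z k * emb (x0 z) k = (-1) ^ k.val := by
  rcases Nat.mod_two_eq_zero_or_one k.val with h | h
  · have h1 : x0 z k = z k := by unfold x0; simp [h]
    have h2 : Even k.val := Nat.even_iff.mpr h
    rw [h2.neg_one_pow]
    unfold emb
    rw [h1]
    cases z k <;> simp
  · have h1 : x0 z k = !(z k) := by unfold x0; simp [h]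
    have h2 : Odd k.val := Nat.odd_iff.mpr h
    rw [h2.neg_one_pow]
    unfold emb
    rw [h1]
    cases z k <;> simp

lemma inner_x0 (z : Pt n) : (∑ k, emb z k * emb (x0 z) k) ^ 2 ≤ 1 := by
  have h1 : ∑ k, emb z k * emb (x0 z) k = ∑ i ∈ Finset.range n, (-1 : ℝ) ^ i := by
    rw [← Fin.sum_univ_eq_sum_range (fun i => (-1 : ℝ) ^ i) n]
    exact Finset.sum_congr rfl fun k _ => emb_x0 z k
  rw [h1, neg_one_geom_sum]
  split_ifs <;> norm_num

lemma psi_init (hn : 0 < n) (z : Pt n) :
    (n : ℝ) - 1 ≤ Psi (emb z) {emb (x0 z)} := by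
  set S : Set (Fin n → ℝ) := {emb (x0 z)} with hS
  have hne : S.Nonempty := ⟨_, rfl⟩
  have hb : ∀ v ∈ S, ∀ k, |v k| ≤ 1 := by
    intro v hv k
    rw [Set.mem_singleton_iff.mp hv]; exact emb_abs _ _
  have h1 := psi_change (σ := emb z) (emb_abs z) (ω := fun _ => 1) (ω' := om S) hne hb
    (fun _ => zero_le_one) (fun k => om_le_one S k)
  have h2 : (n : ℝ) - 1 ≤ phi (emb z) (fun _ => 1) S := by
    apply le_phi hne
    intro v hv
    have h3 := hul_le_span S hv
    rw [hS, Submodule.mem_span_singleton] at h3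
    obtain ⟨θ, rfl⟩ := h3
    set s := ∑ k, emb z k * emb (x0 z) k with hs
    have hs2 : s ^ 2 ≤ 1 := inner_x0 z
    have h4 : nrm (emb z) (fun _ => 1) (θ • emb (x0 z)) = n - 2 * θ * s + θ ^ 2 * n := by
      unfold nrm
      have h5 : ∀ k : Fin n, (1 : ℝ) * (emb z k - (θ • emb (x0 z)) k) ^ 2 =
          1 - 2 * θ * (emb z k * emb (x0 z) k) + θ ^ 2 := by
        intro k
        have e1 := emb_sq z k
        have e2 := emb_sq (x0 z) k
        simp only [Pi.smul_apply, smul_eq_mul]
        calc (1 : ℝ) * (emb z k - θ * emb (x0 z) k) ^ 2 =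
            emb z k ^ 2 - 2 * θ * (emb z k * emb (x0 z) k) + θ ^ 2 * emb (x0 z) k ^ 2 := by ring
          _ = _ := by rw [e1, e2]; ring
      simp only [h5]
      rw [Finset.sum_add_distrib, Finset.sum_sub_distrib, ← Finset.mul_sum]
      simp only [Finset.sum_const, Finset.card_univ, Fintype.card_fin, nsmul_eq_mul]
      rw [← hs]; ring
    rw [h4]
    have hn1 : (1 : ℝ) ≤ n := by exact_mod_cast hn
    have h6 : 0 ≤ (θ - s) ^ 2 := sq_nonneg _
    have h7 : θ ^ 2 * 1 ≤ θ ^ 2 * n := mul_le_mul_of_nonneg_left hn1 (sq_nonneg _)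
    nlinarith
  have h3 : Psi (emb z) S = phi (emb z) (om S) S + 4 * ∑ k, (1 - om S k) := rfl
  rw [h3]
  simp only [sub_self, Finset.sum_const_zero, mul_zero, add_zero] at h1
  linarith

lemma finrank_sset (z : Pt n) {m : ℕ} (h : Fin m → Pt n) :
    Module.finrank ℝ (Submodule.span ℝ (sset z h)) ≤ m + 1 := by
  classical
  set T : Finset (Fin n → ℝ) := insert (emb (x0 z)) (Finset.univ.image fun i => emb (h i)) with hT
  have h1 : sset z h = (T : Set (Fin n → ℝ)) := by
    unfold sset
    rw [hT]
    simp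
  rw [h1]
  have h2 : T.card ≤ m + 1 := by
    rw [hT]
    refine (Finset.card_insert_le _ _).trans ?_
    have := Finset.card_image_le (s := (Finset.univ : Finset (Fin m))) (f := fun i => emb (h i))
    simp only [Finset.card_univ, Fintype.card_fin] at this
    omega
  exact (finrank_span_finset_le_card T).trans h2

lemma sum_om (hn : 0 < n) (z : Pt n) {m : ℕ} (h : Fin m → Pt n) :
    ∑ k, (1 - om (sset z h) k) ≤ 64 * (m + 1) := by
  have hn' : (0 : ℝ) < n := by exact_mod_cast hn
  have h1 := sum_one_sub_wt (ε := 1 / (4 * (Fintype.card (Fin n) : ℝ))) (τ := 1 / 32)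
    (by rw [Fintype.card_fin]; positivity) (by norm_num) (Submodule.span ℝ (sset z h))
  have h2 : (Module.finrank ℝ (Submodule.span ℝ (sset z h)) : ℝ) ≤ m + 1 := by
    exact_mod_cast finrank_sset z h
  have h3 : ∑ k, (1 - om (sset z h) k) = ∑ k, (1 - wt (expo (1 / (4 * (Fintype.card (Fin n) : ℝ)))
    (1 / 32) (Submodule.span ℝ (sset z h))) k) := rfl
  rw [h3]
  linarith

lemma psi_upper (hn : 0 < n) (z : Pt n) {m : ℕ} (h : Fin m → Pt n) :
    Psi (emb z) (sset z h) ≤ n + 256 * (m + 1) := by
  have h1 := sum_om hn z h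
  have h2 : phi (emb z) (om (sset z h)) (sset z h) ≤
      nrm (emb z) (om (sset z h)) 0 :=
    phi_le (fun k => (om_pos _ k).le) (zero_mem_hul ⟨_, Set.mem_insert _ _⟩)
  have h3 : nrm (emb z) (om (sset z h)) 0 ≤ n := by
    unfold nrm
    have h4 : ∀ k ∈ (Finset.univ : Finset (Fin n)),
        om (sset z h) k * (emb z k - (0 : Fin n → ℝ) k) ^ 2 ≤ 1 := by
      intro k _
      rw [Pi.zero_apply, sub_zero, emb_sq, mul_one]
      exact om_le_one _ _
    have := Finset.sum_le_card_nsmul _ _ _ h4
    simpa using this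
  have h4 : Psi (emb z) (sset z h) = phi (emb z) (om (sset z h)) (sset z h) +
      4 * ∑ k, (1 - om (sset z h) k) := rfl
  rw [h4]
  linarith

lemma psi_hit (hn : 0 < n) (z : Pt n) {m : ℕ} (h : Fin m → Pt n) {i : Fin m} (hi : h i = z) :
    Psi (emb z) (sset z h) ≤ 256 * (m + 1) := by
  have h1 := sum_om hn z h
  have hm : emb z ∈ sset z h := Set.mem_insert_of_mem _ ⟨i, by show emb (h i) = emb z; rw [hi]⟩
  have h2 : phi (emb z) (om (sset z h)) (sset z h) ≤
      nrm (emb z) (om (sset z h)) (emb z) :=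
    phi_le (fun k => (om_pos _ k).le) (subset_hul _ hm)
  have h3 : nrm (emb z) (om (sset z h)) (emb z) = 0 := by
    unfold nrm; simp
  have h4 : Psi (emb z) (sset z h) = phi (emb z) (om (sset z h)) (sset z h) +
      4 * ∑ k, (1 - om (sset z h) k) := rfl
  rw [h4]
  linarith

lemma max_eq (z x : Pt n) (hx : IsMaximiser (OM z) x) : x = z := by
  have h1 := hx z
  unfold OM at h1
  have h2 : (Finset.univ.filter (fun i => z i = z i)).card = n := by simp
  rw [h2] at h1
  have h3 : (Finset.univ.filter (fun i => x i = z i)).card = (Finset.univ : Finset (Fin n)).card := by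
    apply le_antisymm (Finset.card_filter_le _ _)
    simpa using h1
  have h4 := Finset.card_filter_eq_iff.mp h3
  funext i
  exact h4 i (Finset.mem_univ i)

/-- the tail probability as a real number -/
lemma tail_lower (hn : 0 < n) (R : Rule 2 n) (z : Pt n) (m : ℕ) :
    (n : ℝ) - 1 - 97 * m ≤ (tailProb R (OM z) m).toReal * n + 256 * (m + 1) := by
  classical
  have h1 := ev_queries hn R (OM z) z m
  have h2 := psi_init hn z
  set A : Set (Fin m → Pt n) := {h | ∀ i, ¬ IsMaximiser (OM z) (h i)} with hA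
  have h3 : (tailProb R (OM z) m).toReal =
      ∑ h, (if h ∈ A then (queries R (OM z) m h).toReal else 0) := by
    unfold tailProb
    rw [PMF.toOuterMeasure_apply_fintype, ENNReal.toReal_sum]
    · apply Finset.sum_congr rfl; intro h _
      by_cases hh : h ∈ A
      · rw [Set.indicator_of_mem hh, if_pos hh]
      · rw [Set.indicator_of_notMem hh, if_neg hh]; simp
    · intro h _
      by_cases hh : h ∈ A
      · rw [Set.indicator_of_mem hh]; exact PMF.apply_ne_top _ _
      · rw [Set.indicator_of_notMem hh]; simp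
  have h4 : ev (queries R (OM z) m) (fun h => Psi (emb z) (sset z h)) ≤
      ∑ h, ((if h ∈ A then (queries R (OM z) m h).toReal else 0) * n +
        (queries R (OM z) m h).toReal * (256 * (m + 1))) := by
    unfold ev
    apply Finset.sum_le_sum; intro h _
    by_cases hh : h ∈ A
    · rw [if_pos hh]
      have := psi_upper hn z h
      have h5 : 0 ≤ (queries R (OM z) m h).toReal := ENNReal.toReal_nonneg
      calc (queries R (OM z) m h).toReal * Psi (emb z) (sset z h) ≤
          (queries R (OM z) m h).toReal * (n + 256 * (m + 1)) :=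
            mul_le_mul_of_nonneg_left this h5
        _ = _ := by ring
    · rw [if_neg hh]
      have h5 : 0 ≤ (queries R (OM z) m h).toReal := ENNReal.toReal_nonneg
      have h6 : ∃ i, IsMaximiser (OM z) (h i) := by
        by_contra hcon
        push Not at hcon
        exact hh hcon
      obtain ⟨i, hi⟩ := h6
      have := psi_hit hn z h (max_eq z _ hi)
      rw [zero_mul, zero_add]
      exact mul_le_mul_of_nonneg_left this h5
  rw [Finset.sum_add_distrib, ← Finset.sum_mul, ← Finset.sum_mul, ← h3, ev_one, one_mul] at h4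
  linarith

lemma tail_half (hn : 0 < n) (R : Rule 2 n) (z : Pt n) (m : ℕ) (hm : 1000 * (m + 1) ≤ n) :
    (2 : ℝ≥0∞)⁻¹ ≤ tailProb R (OM z) m := by
  have h1 := tail_lower hn R z m
  have hn' : (0 : ℝ) < n := by exact_mod_cast hn
  have hm' : 1000 * ((m : ℝ) + 1) ≤ n := by exact_mod_cast hm
  have hm0 : (0 : ℝ) ≤ m := by positivity
  set P := (tailProb R (OM z) m).toReal with hP
  have h2 : 1 / 2 ≤ P := by
    have h3 : (n : ℝ) * (1 / 2) ≤ n * P := by nlinarith
    exact le_of_mul_le_mul_left h3 hn'
  have h3 : (2 : ℝ≥0∞)⁻¹ = ENNReal.ofReal (1 / 2) := by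
    rw [one_div, ENNReal.ofReal_inv_of_pos (by norm_num)]
    simp
  rw [h3]
  exact (ENNReal.ofReal_le_ofReal h2).trans ENNReal.ofReal_toReal_le

/-- lower bound for every rule and every target -/
theorem rule_lower {n : ℕ} (hn : 2000 ≤ n) (R : Rule 2 n) (z : Pt n) :
    ENNReal.ofReal ((1 / 4000) * (n : ℝ)) ≤ ruleTime R (OM z) := by
  have hn0 : 0 < n := by omega
  set M := n / 1000 with hM
  have h1 : ∑ m ∈ Finset.range M, (2 : ℝ≥0∞)⁻¹ ≤ ruleTime R (OM z) := by
    unfold ruleTime
    refine le_trans ?_ (ENNReal.sum_le_tsum (Finset.range M))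
    apply Finset.sum_le_sum
    intro m hm
    rw [Finset.mem_range] at hm
    apply tail_half hn0 R z m
    have : 1000 * M ≤ n := Nat.mul_div_le n 1000
    calc 1000 * (m + 1) ≤ 1000 * M := by omega
      _ ≤ n := this
  refine le_trans ?_ h1
  rw [Finset.sum_const, Finset.card_range, nsmul_eq_mul]
  have h2 : (M : ℝ≥0∞) * 2⁻¹ = ENNReal.ofReal ((M : ℝ) * (1 / 2)) := by
    rw [ENNReal.ofReal_mul (by positivity), ENNReal.ofReal_natCast, one_div,
      ENNReal.ofReal_inv_of_pos (by norm_num)]
    simp
  rw [h2]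
  apply ENNReal.ofReal_le_ofReal
  have h3 : n < 1000 * (M + 1) := by
    rw [hM]; omega
  have h4 : 2 ≤ M := by rw [hM]; omega
  have h3' : (n : ℝ) < 1000 * ((M : ℝ) + 1) := by exact_mod_cast h3
  have h4' : (2 : ℝ) ≤ M := by exact_mod_cast h4
  linarith

theorem B_lower {n : ℕ} (hn : 2000 ≤ n) : ENNReal.ofReal ((1 / 4000) * (n : ℝ)) ≤ B n := by
  unfold B complexity
  refine le_iInf fun A => ?_
  refine le_trans ?_ (le_iSup (fun z : Pt n => A.expTime (OM z)) (fun _ => true))
  unfold Algorithm.expTime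
  have := A.mSeed
  have := A.prob
  have h1 : ∫⁻ _ : A.Seed, ENNReal.ofReal ((1 / 4000) * (n : ℝ)) ∂A.law =
      ENNReal.ofReal ((1 / 4000) * (n : ℝ)) := by
    rw [MeasureTheory.lintegral_const, MeasureTheory.measure_univ, mul_one]
  rw [← h1]
  exact MeasureTheory.lintegral_mono fun s => rule_lower hn (A.rule s) _

end UBB
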